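import Pool.Agent.Helper59.LQ.L3a

/-! Package L3: the rescaled local sequences. -/

set_option autoImplicit false
set_option maxHeartbeats 1000000

open Complex MeasureTheory Filter Topology

namespace Pool.Agent.Helper59.LQ

open Pool.Agent.Helper75.LQ Pool.Agent.Helper75.JE
open Pool.Agent.H306R2 (Zt)
open Pool.Agent.Helper85.LG (xi Pg xi_diff xi_one_sub xi_conj Lm Pg_ne xi_eq zeta_two_sided)

lemma Lag_scale {g : ℂ → ℂ} (hg : Differentiable ℂ g) (a s : ℝ) (m : ℕ) :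
    Lag (fun z => g ((a : ℂ) * z)) s m = a ^ (2 * m) * Lag g (a * s) m := by
  have e : S (fun z => g ((a : ℂ) * z)) s = fun η => S g ((a * s : ℝ) : ℂ) ((a : ℂ) * η) := by
    funext η
    unfold S
    congr 2 <;> (push_cast; ring_nf)
  unfold Lag
  rw [e]
  unfold tc
  have hS : ContDiff ℂ (2 * m : ℕ) (S g ((a * s : ℝ) : ℂ)) := by
    have : Differentiable ℂ (S g ((a * s : ℝ) : ℂ)) := by
      unfold S
      have h1 : Differentiable ℂ (fun η : ℂ => g (((a * s : ℝ) : ℂ) + I * η)) := hg.comp (by fun_prop)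
      have h2 : Differentiable ℂ (fun η : ℂ => g (((a * s : ℝ) : ℂ) - I * η)) := hg.comp (by fun_prop)
      exact h1.mul h2
    exact this.contDiff
  rw [iteratedDeriv_comp_const_smul hS (a : ℂ)]
  simp only [mul_zero, smul_eq_mul]
  rw [mul_div_assoc, ← Complex.ofReal_pow, Complex.re_ofReal_mul]

theorem st_L3 (hZ3 : St_Z3) (hZ4 : St_Z4) (hL2 : St_L2) (hL5 : St_L5) : St_L3 := by
  obtain ⟨K, hK0, hK⟩ := strip2
  obtain ⟨C5', hC5', hG⟩ := hL5
  obtain ⟨B, hB⟩ := glob_fun C5' hC5'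
  refine ⟨max 10 K, B, le_max_left _ _, fun ε hε => ?_⟩
  set d : ℝ := min ε 1 / 4 with hd
  have hm0 : 0 < min ε 1 := lt_min hε one_pos
  have hd0 : 0 < d := by rw [hd]; linarith
  have hd14 : d ≤ 1 / 4 := by have := min_le_right ε 1; rw [hd]; linarith
  have hdε : d ≤ ε / 4 := by have := min_le_left ε 1; rw [hd]; linarith
  refine ⟨d ^ 2 / 16, by positivity, fun A κ hA0 hA12 hκ0 hκ hUp hbig hLag => ?_⟩
  have hκε : κ < 3 / 2 * A * ε := by
    have h1 : d ^ 2 ≤ ε / 16 := by nlinarith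
    have h2 : d ^ 2 / 16 * A ≤ ε / 256 * A := mul_le_mul_of_nonneg_right (by linarith) hA0.le
    have h3 : 0 < A * ε := mul_pos hA0 hε
    nlinarith
  have hFd := few_of_L2 hL2 hA0 hA12 hκ0 hd0 hd14 hκ hUp hLag
  -- the exponent `A'`
  obtain ⟨A', hA'0, hA'12, hAA', hA'd, hUp', hF', hA'c⟩ : ∃ A' : ℝ, 0 < A' ∧ A' ≤ 1 / 2 ∧ A ≤ A' ∧ A' ≤ A * (1 + d) ∧
      UpA A' ∧ (∀ e > 0, Few (1 / 2 + (2 * A' + e))) ∧ (A' = A * (1 + d) ∨ A' = 1 / 2) := by
    refine ⟨min (A * (1 + d)) (1 / 2), lt_min (by positivity) (by norm_num), min_le_right _ _,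
      le_min (by nlinarith) hA12, min_le_left _ _, ?_, ?_, min_choice _ _⟩
    · intro e he
      obtain ⟨C, hC⟩ := hUp e he
      refine ⟨C, fun t ht => (hC t ht).trans ?_⟩
      have hC0 : 0 ≤ C := by
        have := (norm_nonneg _).trans (hC 1 le_rfl)
        simpa using this
      apply mul_le_mul_of_nonneg_left _ hC0
      apply Real.rpow_le_rpow_of_exponent_le ht
      have : A ≤ min (A * (1 + d)) (1 / 2) := le_min (by nlinarith) hA12
      linarith
    · intro e he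
      rcases min_choice (A * (1 + d)) (1 / 2) with h | h
      · rw [h]
        exact (hFd e he).mono (by linarith)
      · rw [h]
        exact few_one.mono (by linarith)
  -- the exponent `θ`
  obtain ⟨θ, h12, h54, hθA, hθA', hθ⟩ : ∃ θ : ℝ, 1 / 2 ≤ θ ∧ θ ≤ 5 / 4 ∧ θ ≤ 1 / 2 + 2 * A * (1 + d) ∧
      θ ≤ 1 / 2 + 2 * A' ∧ ∀ e > 0, Few (θ + e) := by
    rcases le_total (1 / 2 + 2 * A * (1 + d)) (5 / 4) with h | h
    · refine ⟨1 / 2 + 2 * A * (1 + d), by nlinarith, h, le_rfl, ?_, fun e he => (hFd e he).mono (by linarith)⟩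
      rcases hA'c with h' | h'
      · rw [h']; linarith
      · rw [h']; linarith
    · refine ⟨5 / 4, by norm_num, le_rfl, h, ?_, fun e he => few_one.mono (by linarith)⟩
      rcases hA'c with h' | h'
      · rw [h']; linarith
      · rw [h']; norm_num
  have hch : ∀ j : ℕ, ∃ t : ℝ, max (j : ℝ) 3 ≤ t ∧ t ^ (A - 1 / ((j : ℝ) + 1)) ≤ ‖riemannZeta (1 / 2 + t * I)‖ :=
    fun j => hbig _ (by positivity) _
  choose x hx1 hx2 using hch
  have hx3 : ∀ j, 3 ≤ x j := fun j => (le_max_right _ _).trans (hx1 j)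
  have hxj : ∀ j : ℕ, (j : ℝ) ≤ x j := fun j => (le_max_left _ _).trans (hx1 j)
  have hx0 : ∀ j, 0 < x j := fun j => by linarith [hx3 j]
  have hxlim : Tendsto x atTop atTop := tendsto_atTop_mono hxj tendsto_natCast_atTop_atTop
  have hllim : Tendsto (fun j => Real.log (x j)) atTop atTop := Real.tendsto_log_atTop.comp hxlim
  have hLlim : Tendsto (fun j => 2 * A * Real.log (x j)) atTop atTop := hllim.const_mul_atTop (by linarith)
  have hL1 : ∀ j, 1 ≤ Real.log (x j) := by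
    intro j
    rw [Real.le_log_iff_exp_le (hx0 j)]
    have := Real.exp_one_lt_d9
    linarith [hx3 j]
  have hN : ∀ j, 0 < Nx (x j) := fun j => Nx_pos (hx0 j)
  have hlog2 : Real.log 2 ≤ 1 := by linarith [Real.log_two_lt_d9]
  -- logarithms of heights
  have hht : ∀ R : ℝ, ∀ᶠ j in atTop, ∀ s : ℝ, |s| ≤ R → 1 ≤ x j + s ∧ Real.log (x j) - 1 ≤ Real.log (x j + s) ∧
      Real.log (x j + s) ≤ Real.log (x j) + 1 := by
    intro R
    filter_upwards [hxlim.eventually_ge_atTop (2 * R + 2)] with j hj s hs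
    have hs2 := abs_le.1 hs
    have h1 : x j / 2 ≤ x j + s := by linarith
    have h2 : x j + s ≤ 2 * x j := by linarith
    have h3 : 1 ≤ x j + s := by linarith [hx3 j]
    have l1 := Real.log_le_log (by linarith [hx3 j]) h1
    have l2 := Real.log_le_log (by linarith) h2
    rw [Real.log_div (hx0 j).ne' (by norm_num)] at l1
    rw [Real.log_mul (by norm_num) (hx0 j).ne'] at l2
    exact ⟨h3, by linarith, by linarith⟩
  have hevT : ∀ T R : ℝ, ∀ᶠ j in atTop, ∀ s : ℝ, |s| ≤ R → T ≤ x j + s := by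
    intro T R
    filter_upwards [hxlim.eventually_ge_atTop (T + R)] with j hj s hs
    have hs2 := abs_le.1 hs
    linarith
  -- local comparison
  have hcmp : ∀ R : ℝ, ∃ C5 : ℝ, ∀ᶠ j in atTop, ∀ z : ℂ, |z.re| ≤ R → |z.im| ≤ 8 →
      ‖gl (x j) z‖ ≤ Real.exp (C5 + |z.im| / 2 * Real.log (x j)) *
        ‖riemannZeta (((1 / 2 + |z.im| : ℝ) : ℂ) + ((x j + z.re : ℝ) : ℂ) * I)‖ ∧
      Real.exp (-C5 + |z.im| / 2 * Real.log (x j)) *
        ‖riemannZeta (((1 / 2 + |z.im| : ℝ) : ℂ) + ((x j + z.re : ℝ) : ℂ) * I)‖ ≤ ‖gl (x j) z‖ := by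
    intro R
    obtain ⟨C5, X5, h5⟩ := z5 R
    refine ⟨C5, ?_⟩
    filter_upwards [hxlim.eventually_ge_atTop X5] with j hj z hz hz'
    obtain ⟨a1, a2⟩ := h5 (x j) hj z.re |z.im| hz (abs_nonneg _) hz'
    have er : x j ^ (|z.im| / 2) = Real.exp (|z.im| / 2 * Real.log (x j)) := by
      rw [Real.rpow_def_of_pos (hx0 j), mul_comm]
    have ez : (((1 / 2 + |z.im| : ℝ) : ℂ) + ((x j + z.re : ℝ) : ℂ) * I) =
        1 / 2 + ((|z.im| : ℝ) : ℂ) + ((x j : ℂ) + ((z.re : ℝ) : ℂ)) * I := by push_cast; ring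
    rw [norm_gl (hx0 j), ez, Real.exp_add, Real.exp_add, ← er]
    have hNj := hN j
    constructor
    · rw [div_le_iff₀ hNj]
      refine a1.trans (le_of_eq ?_)
      unfold Nx; ring
    · rw [le_div_iff₀ hNj]
      refine le_trans (le_of_eq ?_) a2
      unfold Nx; ring
  -- scaling
  have sre : ∀ z : ℂ, (((2 * A : ℝ) : ℂ) * z).re = 2 * A * z.re := fun z => by
    rw [Complex.re_ofReal_mul]
  have sim : ∀ z : ℂ, (((2 * A : ℝ) : ℂ) * z).im = 2 * A * z.im := fun z => by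
    rw [Complex.im_ofReal_mul]
  have sabs : ∀ r : ℝ, |2 * A * r| = 2 * A * |r| := fun r => by
    rw [abs_mul, abs_of_pos (by linarith : 0 < 2 * A)]
  have hre : ∀ (R : ℝ) (z : ℂ), |z.re| ≤ R → |(((2 * A : ℝ) : ℂ) * z).re| ≤ R := by
    intro R z hz
    rw [sre, sabs]
    have := abs_nonneg z.re
    nlinarith
  have him : ∀ z : ℂ, |z.im| ≤ 8 → |(((2 * A : ℝ) : ℂ) * z).im| ≤ 8 := by
    intro z hz
    rw [sim, sabs]
    have := abs_nonneg z.im
    nlinarith
  set e : ℝ := A * d with he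
  have he0 : 0 < e := by positivity
  have he1 : e ≤ 1 := by nlinarith
  have hA'e : A' + e ≤ A + 2 * A * d := by rw [he]; linarith
  have hAε : 0 < A * ε := by positivity
  have hdA : 2 * A * d ≤ A * ε / 2 := by nlinarith
  refine ⟨fun j z => gl (x j) (((2 * A : ℝ) : ℂ) * z), fun j => 2 * A * Real.log (x j), ?_⟩
  refine { lim := hLlim, ent := fun j => (gl_diff _).comp (by fun_prop),
           re := fun j z => ?_, up0 := ?_, up1 := ?_, lo1 := ?_, big := ?_, strip := ?_, glob := ?_, pos := ?_ }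
  · show gl (x j) (((2 * A : ℝ) : ℂ) * (starRingEnd ℂ) z) = (starRingEnd ℂ) (gl (x j) (((2 * A : ℝ) : ℂ) * z))
    rw [← gl_re, map_mul, Complex.conj_ofReal]
  · -- up0
    intro R
    obtain ⟨C5, h5⟩ := hcmp R
    obtain ⟨T4, h4⟩ := hZ4 A' hA'0 hA'12 hUp' hF' e he0
    filter_upwards [h5, hht R, hevT T4 R, hllim.eventually_ge_atTop ((C5 + 2) / (A * ε))] with j a1 a2 a3 a4 z hz hz'
    have hz8 : |z.im| ≤ 8 := by linarith
    obtain ⟨b1, -⟩ := a1 (((2 * A : ℝ) : ℂ) * z) (hre R z hz) (him z hz8)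
    obtain ⟨c1, c2, c3⟩ := a2 _ (hre R z hz)
    have c4 := a3 _ (hre R z hz)
    rw [div_le_iff₀ hAε] at a4
    set u : ℂ := ((2 * A : ℝ) : ℂ) * z with hu
    have hy : |u.im| ≤ 2 * A' := by
      rw [hu, sim, sabs]
      have := abs_nonneg z.im
      nlinarith
    have hy0 : 0 ≤ |u.im| := abs_nonneg _
    have e1 : ((((1 / 2 + |u.im| : ℝ) : ℂ) + ((x j + u.re : ℝ) : ℂ) * I)).re = 1 / 2 + |u.im| := by simp
    have e2 : ((((1 / 2 + |u.im| : ℝ) : ℂ) + ((x j + u.re : ℝ) : ℂ) * I)).im = x j + u.re := by simp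
    have d1 := h4 (((1 / 2 + |u.im| : ℝ) : ℂ) + ((x j + u.re : ℝ) : ℂ) * I) (by rw [e1]; linarith) (by rw [e1]; linarith)
      (by rw [e2]; exact c4)
    rw [e1, e2] at d1
    refine b1.trans ((mul_le_mul_of_nonneg_left d1 (Real.exp_pos _).le).trans ?_)
    rw [Real.rpow_def_of_pos (by linarith), ← Real.exp_add]
    apply Real.exp_le_exp.2
    have f1 : Real.log (x j + u.re) * (A' - (1 / 2 + |u.im| - 1 / 2) / 2 + e) ≤
        (Real.log (x j) + 1) * (A' - (1 / 2 + |u.im| - 1 / 2) / 2 + e) :=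
      mul_le_mul_of_nonneg_right c3 (by linarith)
    have hl1 := hL1 j
    have f2 : Real.log (x j) * (A' + e) ≤ Real.log (x j) * (A + A * ε / 2) :=
      mul_le_mul_of_nonneg_left (by linarith) (by linarith)
    nlinarith
  · -- up1
    intro R
    obtain ⟨C5, h5⟩ := hcmp R
    obtain ⟨T4, h4⟩ := hZ4 A' hA'0 hA'12 hUp' hF' e he0
    obtain ⟨T5, h5'⟩ := zup hZ3 hZ4 hA'0 hA'12 hUp' hF' h12 h54 hθA' hθ e he0
    filter_upwards [h5, hht R, hevT T4 R, hevT T5 R, hllim.eventually_ge_atTop ((C5 + 2) / (A * ε))] with j a1 a2 a3 a3' a4 z hz hz' hz8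
    obtain ⟨b1, -⟩ := a1 (((2 * A : ℝ) : ℂ) * z) (hre R z hz) (him z hz8)
    obtain ⟨c1, c2, c3⟩ := a2 _ (hre R z hz)
    have c4 := a3 _ (hre R z hz)
    have c4' := a3' _ (hre R z hz)
    rw [div_le_iff₀ hAε] at a4
    set u : ℂ := ((2 * A : ℝ) : ℂ) * z with hu
    have hyu : |u.im| = 2 * A * |z.im| := by rw [hu, sim, sabs]
    have hyA : 2 * A ≤ |u.im| := by rw [hyu]; nlinarith
    have hy8 : |u.im| ≤ 8 := him z hz8
    have hl1 := hL1 j
    have hgoal : 2 * A * Real.log (x j) * (|z.im| / 2 + ε) = |u.im| / 2 * Real.log (x j) + 2 * (Real.log (x j) * (A * ε)) := by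
      rw [hyu]; ring
    rw [hgoal]
    rcases le_total |u.im| (2 * A') with hc | hc
    · have e1 : ((((1 / 2 + |u.im| : ℝ) : ℂ) + ((x j + u.re : ℝ) : ℂ) * I)).re = 1 / 2 + |u.im| := by simp
      have e2 : ((((1 / 2 + |u.im| : ℝ) : ℂ) + ((x j + u.re : ℝ) : ℂ) * I)).im = x j + u.re := by simp
      have d1 := h4 (((1 / 2 + |u.im| : ℝ) : ℂ) + ((x j + u.re : ℝ) : ℂ) * I) (by rw [e1]; linarith) (by rw [e1]; linarith)
        (by rw [e2]; exact c4)
      rw [e1, e2] at d1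
      refine b1.trans ((mul_le_mul_of_nonneg_left d1 (Real.exp_pos _).le).trans ?_)
      rw [Real.rpow_def_of_pos (by linarith), ← Real.exp_add]
      apply Real.exp_le_exp.2
      have f1 : Real.log (x j + u.re) * (A' - (1 / 2 + |u.im| - 1 / 2) / 2 + e) ≤
          (Real.log (x j) + 1) * (A' - (1 / 2 + |u.im| - 1 / 2) / 2 + e) :=
        mul_le_mul_of_nonneg_right c3 (by linarith)
      have f3 : A' - (1 / 2 + |u.im| - 1 / 2) / 2 + e ≤ A * ε / 2 := by linarith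
      have f2 : Real.log (x j) * (A' - (1 / 2 + |u.im| - 1 / 2) / 2 + e) ≤ Real.log (x j) * (A * ε / 2) :=
        mul_le_mul_of_nonneg_left f3 (by linarith)
      nlinarith
    · have d1 := h5' |u.im| (x j + u.re) hc hy8 c4'
      refine b1.trans ((mul_le_mul_of_nonneg_left d1 (Real.exp_pos _).le).trans ?_)
      rw [Real.rpow_def_of_pos (by linarith), ← Real.exp_add]
      apply Real.exp_le_exp.2
      have f1 : Real.log (x j + u.re) * e ≤ (Real.log (x j) + 1) * e := mul_le_mul_of_nonneg_right c3 he0.le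
      have f2 : Real.log (x j) * e ≤ Real.log (x j) * (A * ε) :=
        mul_le_mul_of_nonneg_left (by linarith) (by linarith)
      nlinarith
  · -- lo1
    intro R
    obtain ⟨C5, h5⟩ := hcmp R
    obtain ⟨T4, h4⟩ := hZ3 θ h12 hθ (1 / 2 + 2 * A * (1 + ε)) (by nlinarith) e he0
    filter_upwards [h5, hht R, hevT T4 R, hllim.eventually_ge_atTop ((C5 + 2) / (A * ε))] with j a1 a2 a3 a4 z hz hz' hz8
    have hab : |z.im| = z.im := abs_of_nonneg (by linarith)
    obtain ⟨-, b1⟩ := a1 (((2 * A : ℝ) : ℂ) * z) (hre R z hz) (him z (by rw [hab]; exact hz8))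
    obtain ⟨c1, c2, c3⟩ := a2 _ (hre R z hz)
    have c4 := a3 _ (hre R z hz)
    rw [div_le_iff₀ hAε] at a4
    set u : ℂ := ((2 * A : ℝ) : ℂ) * z with hu
    have hyu : |u.im| = 2 * A * z.im := by rw [hu, sim, sabs, hab]
    have hy8 : |u.im| ≤ 8 := him z (by rw [hab]; exact hz8)
    have hyA : 2 * A * (1 + ε) ≤ |u.im| := by rw [hyu]; nlinarith
    have e1 : ((((1 / 2 + |u.im| : ℝ) : ℂ) + ((x j + u.re : ℝ) : ℂ) * I)).re = 1 / 2 + |u.im| := by simp
    have e2 : ((((1 / 2 + |u.im| : ℝ) : ℂ) + ((x j + u.re : ℝ) : ℂ) * I)).im = x j + u.re := by simp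
    have d1 := (h4 (((1 / 2 + |u.im| : ℝ) : ℂ) + ((x j + u.re : ℝ) : ℂ) * I) (by rw [e1]; linarith)
      (by rw [e1]; linarith) (by rw [e2]; exact c4)).1
    rw [e2] at d1
    refine le_trans ?_ ((mul_le_mul_of_nonneg_left d1 (Real.exp_pos _).le).trans b1)
    rw [Real.rpow_def_of_pos (by linarith), ← Real.exp_add]
    apply Real.exp_le_exp.2
    have hl1 := hL1 j
    have hgoal : 2 * A * Real.log (x j) * (z.im / 2 - ε) = |u.im| / 2 * Real.log (x j) - 2 * (Real.log (x j) * (A * ε)) := by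
      rw [hyu]; ring
    have f1 : Real.log (x j + u.re) * e ≤ (Real.log (x j) + 1) * e := mul_le_mul_of_nonneg_right c3 he0.le
    have f2 : Real.log (x j) * e ≤ Real.log (x j) * (A * ε) :=
      mul_le_mul_of_nonneg_left (by linarith) (by linarith)
    rw [hgoal]
    nlinarith
  · -- big
    obtain ⟨C5, h5⟩ := hcmp 0
    have hinv : ∀ᶠ j : ℕ in atTop, 1 / ((j : ℝ) + 1) ≤ A * ε := by
      have := tendsto_one_div_add_atTop_nhds_zero_nat (𝕜 := ℝ)
      exact this.eventually_le_const hAε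
    filter_upwards [h5, hinv, hllim.eventually_ge_atTop (C5 / (A * ε))] with j a1 a2 a4
    obtain ⟨-, b1⟩ := a1 0 (by simp) (by simp)
    rw [div_le_iff₀ hAε] at a4
    have e1 : ((((1 / 2 + |(0 : ℂ).im| : ℝ) : ℂ) + ((x j + (0 : ℂ).re : ℝ) : ℂ) * I)) = 1 / 2 + x j * I := by
      simp
    have e2 : |(0 : ℂ).im| / 2 * Real.log (x j) = 0 := by simp
    rw [e1, e2] at b1
    show Real.exp (2 * A * Real.log (x j) * (1 / 2 - ε)) ≤ ‖gl (x j) (((2 * A : ℝ) : ℂ) * 0)‖
    rw [mul_zero]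
    refine le_trans ?_ ((mul_le_mul_of_nonneg_left (hx2 j) (Real.exp_pos _).le).trans b1)
    rw [Real.rpow_def_of_pos (hx0 j), ← Real.exp_add]
    apply Real.exp_le_exp.2
    have := hL1 j
    have f2 : Real.log (x j) * (1 / ((j : ℝ) + 1)) ≤ Real.log (x j) * (A * ε) :=
      mul_le_mul_of_nonneg_left a2 (by linarith)
    nlinarith
  · -- strip
    obtain ⟨X, hX⟩ := hK A hA0 hA12 hUp
    filter_upwards [hxlim.eventually_ge_atTop X] with j hj z hz
    set u : ℂ := ((2 * A : ℝ) : ℂ) * z with hu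
    have hyu : |u.im| = 2 * A * |z.im| := by rw [hu, sim, sabs]
    rw [norm_gl (hx0 j), div_le_iff₀ (hN j), mul_comm (Real.exp _)]
    have ew : (1 / 2 + ((|u.im| : ℝ) : ℂ) + ((x j : ℂ) + ((u.re : ℝ) : ℂ)) * I : ℂ) =
        1 / 2 + (((|u.im| : ℝ) : ℂ) + ((u.re : ℝ) : ℂ) * I) + (x j : ℂ) * I := by ring
    rw [ew]
    have r1 : (((|u.im| : ℝ) : ℂ) + ((u.re : ℝ) : ℂ) * I).re = |u.im| := by simp
    have r2 : (((|u.im| : ℝ) : ℂ) + ((u.re : ℝ) : ℂ) * I).im = u.re := by simp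
    refine (hX (x j) hj (((|u.im| : ℝ) : ℂ) + ((u.re : ℝ) : ℂ) * I) (by rw [r1]; exact abs_nonneg _)
      (by rw [r1, hyu]; nlinarith)).trans ?_
    rw [r2]
    apply mul_le_mul_of_nonneg_left _ (hN j).le
    apply Real.exp_le_exp.2
    have hl1 := hL1 j
    have h0 : 0 ≤ 2 * A * Real.log (x j) := by positivity
    have h1 : K * (2 * A * Real.log (x j)) ≤ max 10 K * (2 * A * Real.log (x j)) :=
      mul_le_mul_of_nonneg_right (le_max_right _ _) h0
    have h2 : |u.re| ≤ |z.re| := hre |z.re| z le_rfl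
    have h3 : K * |u.re| ≤ max 10 K * |z.re| :=
      mul_le_mul (le_max_right _ _) h2 (abs_nonneg _) (by positivity)
    linarith
  · -- glob
    intro δ hδ
    obtain ⟨X, hX⟩ := hG A hA0.le hA12 hUp A hA0
    filter_upwards [hxlim.eventually_ge_atTop X, hLlim.eventually_ge_atTop 1] with j hj hL z
    set u : ℂ := ((2 * A : ℝ) : ℂ) * z with hu
    have h1 := hX (x j) hj (I * u)
    have e1 : (1 / 2 + I * u + (x j : ℂ) * I : ℂ) = 1 / 2 + I * (x j + u) := by ring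
    rw [e1, norm_mul, Complex.norm_I, one_mul] at h1
    show ‖gl (x j) u‖ ≤ _
    unfold gl
    rw [norm_div, Complex.norm_real, Real.norm_of_nonneg (hN j).le, div_le_iff₀ (hN j), mul_comm (Real.exp _)]
    refine h1.trans ?_
    apply mul_le_mul_of_nonneg_left _ (hN j).le
    apply Real.exp_le_exp.2
    have hn : ‖u‖ = 2 * A * ‖z‖ := by
      rw [hu, norm_mul, Complex.norm_real, Real.norm_of_nonneg (by linarith)]
    have hz0 : 0 ≤ ‖z‖ := norm_nonneg z
    have hr : |(I * u).re| ≤ 2 * A * ‖z‖ := by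
      have := Complex.abs_re_le_norm (I * u)
      rwa [norm_mul, Complex.norm_I, one_mul, hn] at this
    have hl1 := hL1 j
    set l : ℝ := Real.log (x j) with hl
    have h2 : l * (A + A + |(I * u).re| / 2) ≤ (2 * A * l) * (1 + ‖z‖ / 2) := by
      have : l * (A + A + |(I * u).re| / 2) ≤ l * (A + A + 2 * A * ‖z‖ / 2) :=
        mul_le_mul_of_nonneg_left (by linarith) (by linarith)
      refine this.trans (le_of_eq ?_)
      ring
    have hnz : ‖u‖ ≤ ‖z‖ := by rw [hn]; nlinarith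
    have h3 : C5' * ‖u‖ * Real.sqrt (1 + ‖u‖) ≤ C5' * ‖z‖ * Real.sqrt (1 + ‖z‖) := by
      apply mul_le_mul _ (Real.sqrt_le_sqrt (by linarith)) (Real.sqrt_nonneg _) (by positivity)
      exact mul_le_mul_of_nonneg_left hnz (by linarith)
    have h4 : C5' * ‖z‖ * Real.sqrt (1 + ‖z‖) ≤ (2 * A * l) * (C5' * ‖z‖ * Real.sqrt (1 + ‖z‖)) := by
      have : 0 ≤ C5' * ‖z‖ * Real.sqrt (1 + ‖z‖) := by positivity
      nlinarith
    have h5 := mul_le_mul_of_nonneg_left (hB δ hδ ‖z‖ hz0) (by linarith : 0 ≤ 2 * A * l)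
    nlinarith
  · -- pos
    intro R
    obtain ⟨X, hX⟩ := hLag (3 / 2 * A * ε) hκε
    filter_upwards [hht R, hevT X R, hllim.eventually_ge_atTop 3] with j a2 a3 a4 s hs m hm
    have hs' : |2 * A * s| ≤ R := by
      rw [sabs]
      have := abs_nonneg s
      nlinarith
    obtain ⟨c1, c2, c3⟩ := a2 _ hs'
    rw [Lag_scale (gl_diff _), gl_Lag]
    apply mul_nonneg (by positivity)
    apply div_nonneg _ (sq_nonneg _)
    apply hX _ (a3 _ hs')
    have f1 : 3 / 2 * A * ε * Real.log (x j + 2 * A * s) ≤ 3 / 2 * A * ε * (Real.log (x j) + 1) :=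
      mul_le_mul_of_nonneg_left c3 (by positivity)
    refine f1.trans (le_trans ?_ hm)
    nlinarith

end Pool.Agent.Helper59.LQ
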