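import Pool.Agent.Helper59.LQ.Gauss

/-! Packages D1 and D2. -/

set_option autoImplicit false

open Complex MeasureTheory Filter Topology

namespace Pool.Agent.Helper59.LQ

open Pool.Agent.Helper75.LQ

/-- pointwise bound of `g (z - w)` -/
theorem point_bound {A C : ℝ} {g : ℕ → ℂ → ℂ} {L : ℕ → ℝ} (h : TS A C g L) (c : ℝ) (hc : 8 * C ≤ c) (R : ℝ) :
    ∀ᶠ j in atTop, ∀ z : ℂ, |z.re| ≤ R → |z.im| ≤ 8 → ∀ w : ℝ, 1 < |w| →
      ‖g j (z - w)‖ ≤ Real.exp (C * R) * Real.exp (w ^ 2 / (4 * vv c L j)) := by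
  filter_upwards [h.strip, h.lim.eventually_ge_atTop 1] with j hj hL z hz hz' w hw
  have hC : 10 ≤ C := h.C1
  have h1 : (z - (w : ℂ)).im = z.im := by simp
  have h2 : (z - (w : ℂ)).re = z.re - w := by simp
  have := hj (z - w) (by rw [h1]; exact hz')
  rw [h2] at this
  exact this.trans (tail_bound hC hL hc z.re w hz hw)

theorem st_D1 : St_D1 := by
  intro A C g L h
  refine ⟨8 * C, fun c hc η hη R => ?_⟩
  have hC : 10 ≤ C := h.C1
  have hc0 : 0 < c := by linarith
  have hlim : Tendsto (fun j => Real.exp (L j * (η / 2))) atTop atTop :=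
    Real.tendsto_exp_atTop.comp (h.lim.atTop_mul_const (by linarith))
  filter_upwards [h.up0 (η / 2) (by linarith) (R + 1), point_bound h c hc R, h.lim.eventually_ge_atTop 1,
    hlim.eventually_ge_atTop (1 + 2 * Real.exp (C * R))] with j h0 h1 hL h2 z hz hz'
  have hA1 : A ≤ 1 / 2 := h.A1
  have hA0 : 0 < A := h.A0
  have hv : 0 < vv c L j := by unfold vv; positivity
  have hz8 : |z.im| ≤ 8 := by linarith
  have hp : ∀ w : ℝ, ‖g j (z - w)‖ ≤ Real.exp (L j * (A + η / 2)) + Real.exp (C * R) * Real.exp (w ^ 2 / (4 * vv c L j)) := by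
    intro w
    by_cases hw : |w| ≤ 1
    · have e1 : (z - (w : ℂ)).im = z.im := by simp
      have e2 : (z - (w : ℂ)).re = z.re - w := by simp
      have := h0 (z - w) (by rw [e2]; exact (abs_sub _ _).trans (by linarith)) (by rw [e1]; exact hz')
      have : 0 ≤ Real.exp (C * R) * Real.exp (w ^ 2 / (4 * vv c L j)) := by positivity
      linarith
    · have := h1 z hz hz8 w (by linarith)
      have : 0 ≤ Real.exp (L j * (A + η / 2)) := by positivity
      linarith
  have hb := gauss_bound' (vv c L j) hv (fun w => g j (z - w)) _ _ (Real.exp_pos _).le (Real.exp_pos _).le hp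
  unfold F
  refine hb.trans ?_
  have e : Real.exp (L j * (A + η)) = Real.exp (L j * (A + η / 2)) * Real.exp (L j * (η / 2)) := by
    rw [← Real.exp_add]; congr 1; ring
  have e1 : 1 ≤ Real.exp (L j * (A + η / 2)) := Real.one_le_exp (by positivity)
  rw [e]
  have e3 := mul_le_mul_of_nonneg_left h2 (by linarith : 0 ≤ Real.exp (L j * (A + η / 2)))
  have e2 : 0 < Real.exp (C * R) := Real.exp_pos _
  nlinarith

theorem st_D2 (hA2 : St_A2) : St_D2 := by
  intro A C g L h
  refine ⟨8 * C, fun c hc η hη R => ?_⟩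
  have hC : 10 ≤ C := h.C1
  have hc0 : 0 < c := by linarith
  have hlim : Tendsto (fun j => Real.exp (L j * (η / 2))) atTop atTop :=
    Real.tendsto_exp_atTop.comp (h.lim.atTop_mul_const (by linarith))
  filter_upwards [h.up1 (η / 2) (by linarith) (R + 1), point_bound h c hc R, h.lim.eventually_ge_atTop 1,
    hlim.eventually_ge_atTop (1 + 2 * Real.exp (C * R)), gr_of_TS h c (by linarith)] with j h0 h1 hL h2 hg z hz hz' hz3
  have hA1 : A ≤ 1 / 2 := h.A1
  have hA0 : 0 < A := h.A0
  obtain ⟨hv, hg⟩ := hg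
  set t : ℝ := 1 / (2 * c) with ht
  have ht0 : 0 < t := by positivity
  set z' : ℂ := z - I * t with hz'def
  have e1 : z'.im = z.im - t := by simp [hz'def]
  have e2 : z'.re = z.re := by simp [hz'def]
  have e3 : z = z' + I * t := by simp [hz'def]
  have him : 2 * A ≤ z'.im := by rw [e1]; linarith
  have hab : |z'.im| = z'.im := abs_of_nonneg (by linarith)
  have hz8 : |z'.im| ≤ 8 := by rw [hab, e1]; linarith
  have hp : ∀ w : ℝ, ‖g j (z' - w)‖ ≤ Real.exp (L j * (z'.im / 2 + η / 2)) +
      Real.exp (C * R) * Real.exp (w ^ 2 / (4 * vv c L j)) := by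
    intro w
    by_cases hw : |w| ≤ 1
    · have e1 : (z' - (w : ℂ)).im = z'.im := by simp
      have e2' : (z' - (w : ℂ)).re = z'.re - w := by simp
      have := h0 (z' - w) (by rw [e2', e2]; exact (abs_sub _ _).trans (by linarith)) (by rw [e1, hab]; exact him)
        (by rw [e1]; exact hz8)
      rw [e1, hab] at this
      have : 0 ≤ Real.exp (C * R) * Real.exp (w ^ 2 / (4 * vv c L j)) := by positivity
      linarith
    · have := h1 z' (by rw [e2]; exact hz) hz8 w (by linarith)
      have : 0 ≤ Real.exp (L j * (z'.im / 2 + η / 2)) := by positivity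
      linarith
  have hb := gauss_bound (vv c L j) hv (fun w => g j (z' - w)) _ _ (Real.exp_pos _).le (Real.exp_pos _).le hp t
  have h5 := (hA2 (g j) (vv c L j) (h.ent j) hv hg z' t).2
  rw [← e3] at h5
  rw [h5]
  refine hb.trans ?_
  have e4 : t ^ 2 / (2 * vv c L j) = L j / (8 * c) := by
    rw [ht]; unfold vv; field_simp; ring
  have e5 : L j * (z.im / 2 - 1 / (8 * c) + η) =
      L j / (8 * c) + (L j * (z'.im / 2 + η / 2) + L j * (η / 2)) := by
    rw [e1, ht]; field_simp; ring
  rw [e4, e5, Real.exp_add, Real.exp_add]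
  apply mul_le_mul_of_nonneg_left _ (Real.exp_pos _).le
  have e6 : 1 ≤ Real.exp (L j * (z'.im / 2 + η / 2)) := by
    apply Real.one_le_exp
    have : 0 ≤ z'.im / 2 + η / 2 := by linarith
    positivity
  have e7 := mul_le_mul_of_nonneg_left h2 (by linarith : 0 ≤ Real.exp (L j * (z'.im / 2 + η / 2)))
  have e8 : 0 < Real.exp (C * R) := Real.exp_pos _
  nlinarith

end Pool.Agent.Helper59.LQ
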