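import Pool.Agent.Helper59.LQ.D12

/-! Packages E2 and E3. -/

set_option autoImplicit false

open Complex MeasureTheory Filter Topology

namespace Pool.Agent.Helper59.LQ

open Pool.Agent.Helper75.LQ

theorem normsq_iw (u w : ℝ) : ‖(I * (w : ℂ) - (u : ℂ))‖ ^ 2 = u ^ 2 + w ^ 2 := by
  rw [← Complex.normSq_eq_norm_sq, Complex.normSq_apply]
  simp
  ring

theorem st_E2 (hA4 : St_A4) (hD1 : St_D1) : St_E2 := by
  intro A C g L h
  obtain ⟨B, hB⟩ := h.glob 1 one_pos
  obtain ⟨cD, hcD⟩ := hD1 A C g L h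
  have hC : 10 ≤ C := h.C1
  have hA1 : A ≤ 1 / 2 := h.A1
  have hA0 : 0 < A := h.A0
  refine ⟨max (max cD 32) ((B + 4 * A ^ 2 + 1) / A ^ 2), fun c hc η hη => ?_⟩
  have hc1 : cD ≤ c := le_trans (le_trans (le_max_left _ _) (le_max_left _ _)) hc
  have hc2 : 32 ≤ c := le_trans (le_trans (le_max_right _ _) (le_max_left _ _)) hc
  have hc3 : B + 4 * A ^ 2 + 1 ≤ c * A ^ 2 := by
    have := le_trans (le_max_right _ _) hc
    rwa [div_le_iff₀ (by positivity)] at this
  have hc0 : 0 < c := by linarith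
  set η0 : ℝ := min (min η (c * η ^ 2 / 8)) 1 / 2 with hη0
  have hm1 : min (min η (c * η ^ 2 / 8)) 1 ≤ 1 := min_le_right _ _
  have hm2 : min (min η (c * η ^ 2 / 8)) 1 ≤ η := (min_le_left _ _).trans (min_le_left _ _)
  have hm3 : min (min η (c * η ^ 2 / 8)) 1 ≤ c * η ^ 2 / 8 := (min_le_left _ _).trans (min_le_right _ _)
  have hm0 : 0 < min (min η (c * η ^ 2 / 8)) 1 := by
    apply lt_min (lt_min hη (by positivity)) one_pos
  have hη0' : 0 < η0 := by rw [hη0]; linarith
  have hlim : Tendsto (fun j => Real.exp (L j * η0)) atTop atTop :=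
    Real.tendsto_exp_atTop.comp (h.lim.atTop_mul_const hη0')
  have hlim2 : Tendsto (fun j => Real.exp (L j * (1 / 2))) atTop atTop :=
    Real.tendsto_exp_atTop.comp (h.lim.atTop_mul_const (by norm_num))
  filter_upwards [h.big η0 hη0', hB, hcD c hc1 (c * η ^ 2 / 8) (by positivity) 0, gr_of_TS h c hc2,
    h.lim.eventually_ge_atTop 1, hlim.eventually_ge_atTop 6, hlim2.eventually_ge_atTop 9] with j hbig hglob hd1 hg hL h6 h9
  obtain ⟨hv, hg⟩ := hg
  by_contra hcon
  push Not at hcon
  have hA4' := (hA4 (g j) (vv c L j) (h.ent j) hv hg).2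
  have hvw : ∀ w : ℝ, w ^ 2 / (4 * vv c L j) = L j * (c * w ^ 2 / 4) := by
    intro w; unfold vv; field_simp
  -- bound for large `w`
  have hlarge : ∀ w : ℝ, ‖F (g j) (vv c L j) (I * w)‖ ≤ 2 * Real.exp (L j * (B + w ^ 2)) := by
    intro w
    have := gauss_bound' (vv c L j) hv (fun u => g j (I * w - u)) 0 (Real.exp (L j * (B + w ^ 2))) le_rfl
      (Real.exp_pos _).le (fun u => ?_)
    · unfold F
      refine this.trans (le_of_eq ?_)
      ring
    · refine (hglob _).trans ?_
      rw [zero_add, normsq_iw, hvw, ← Real.exp_add]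
      apply Real.exp_le_exp.2
      have : L j * u ^ 2 ≤ L j * (c * u ^ 2 / 4) := by
        apply mul_le_mul_of_nonneg_left _ (by linarith)
        nlinarith [sq_nonneg u]
      nlinarith
  have hp : ∀ w : ℝ, ‖F (g j) (vv c L j) (I * w)‖ ≤ Real.exp (L j * (A - η)) +
      (Real.exp (L j * (A - c * η ^ 2 / 8)) + 2 * Real.exp (-L j)) * Real.exp (w ^ 2 / (4 * vv c L j)) := by
    intro w
    have p1 : 0 < Real.exp (L j * (A - η)) := Real.exp_pos _
    have p2 : 0 < Real.exp (L j * (A - c * η ^ 2 / 8)) := Real.exp_pos _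
    have p3 : 0 < Real.exp (-L j) := Real.exp_pos _
    have p4 : 0 < Real.exp (w ^ 2 / (4 * vv c L j)) := Real.exp_pos _
    have hn : ‖I * (w : ℂ)‖ = |w| := by simp
    by_cases h1 : |w| ≤ η
    · have := hcon (I * w) (by rw [hn]; exact h1)
      have : 0 < (Real.exp (L j * (A - c * η ^ 2 / 8)) + 2 * Real.exp (-L j)) * Real.exp (w ^ 2 / (4 * vv c L j)) := by
        positivity
      linarith
    · push Not at h1
      have hw2 : η ^ 2 ≤ w ^ 2 := by
        rw [← sq_abs w]
        exact pow_le_pow_left₀ hη.le h1.le 2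
      by_cases h2 : |w| ≤ 2 * A
      · have h3 := hd1 (I * w) (by simp) (by simpa using h2)
        have h4 : Real.exp (L j * (A + c * η ^ 2 / 8)) ≤
            Real.exp (L j * (A - c * η ^ 2 / 8)) * Real.exp (w ^ 2 / (4 * vv c L j)) := by
          rw [← Real.exp_add, hvw]
          apply Real.exp_le_exp.2
          rw [← mul_add]
          apply mul_le_mul_of_nonneg_left _ (by linarith)
          nlinarith
        have : 0 < 2 * Real.exp (-L j) * Real.exp (w ^ 2 / (4 * vv c L j)) := by positivity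
        nlinarith
      · push Not at h2
        have hw3 : (2 * A) ^ 2 ≤ w ^ 2 := by
          rw [← sq_abs w]
          exact pow_le_pow_left₀ (by linarith) h2.le 2
        have h4 : Real.exp (L j * (B + w ^ 2)) ≤ Real.exp (-L j) * Real.exp (w ^ 2 / (4 * vv c L j)) := by
          rw [← Real.exp_add, hvw]
          apply Real.exp_le_exp.2
          have : L j * (B + w ^ 2) ≤ L j * (-1 + c * w ^ 2 / 4) := by
            apply mul_le_mul_of_nonneg_left _ (by linarith)
            have : 0 ≤ (w ^ 2 - (2 * A) ^ 2) * (c / 4 - 1) := mul_nonneg (by linarith) (by linarith)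
            nlinarith
          linarith
        have h5 := hlarge w
        have : 0 < Real.exp (L j * (A - c * η ^ 2 / 8)) * Real.exp (w ^ 2 / (4 * vv c L j)) := by positivity
        nlinarith
  have hb := gauss_bound' (vv c L j) hv (fun w => F (g j) (vv c L j) (I * w)) _ _ (Real.exp_pos _).le (by positivity) hp
  rw [← hA4'] at hb
  have hfin := hbig.trans hb
  set X : ℝ := Real.exp (L j * (A - η0)) with hX
  have hX0 : 0 < X := Real.exp_pos _
  have f1 : Real.exp (L j * (A - η)) * Real.exp (L j * η0) ≤ X := by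
    rw [← Real.exp_add, hX]
    apply Real.exp_le_exp.2
    rw [← mul_add]
    apply mul_le_mul_of_nonneg_left _ (by linarith)
    linarith
  have f2 : Real.exp (L j * (A - c * η ^ 2 / 8)) * Real.exp (L j * η0) ≤ X := by
    rw [← Real.exp_add, hX]
    apply Real.exp_le_exp.2
    rw [← mul_add]
    apply mul_le_mul_of_nonneg_left _ (by linarith)
    linarith
  have f3 : Real.exp (-L j) * Real.exp (L j * (1 / 2)) ≤ X := by
    rw [← Real.exp_add, hX]
    apply Real.exp_le_exp.2
    have : -L j + L j * (1 / 2) = L j * (- (1 / 2)) := by ring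
    rw [this]
    apply mul_le_mul_of_nonneg_left _ (by linarith)
    linarith
  have g1 : Real.exp (L j * (A - η)) ≤ X / 6 := by
    have := mul_le_mul_of_nonneg_left h6 (Real.exp_pos (L j * (A - η))).le
    linarith
  have g2 : Real.exp (L j * (A - c * η ^ 2 / 8)) ≤ X / 6 := by
    have := mul_le_mul_of_nonneg_left h6 (Real.exp_pos (L j * (A - c * η ^ 2 / 8))).le
    linarith
  have g3 : Real.exp (-L j) ≤ X / 9 := by
    have := mul_le_mul_of_nonneg_left h9 (Real.exp_pos (-L j)).le
    linarith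
  linarith

theorem st_E3 (hA1 : St_A1) (hD1 : St_D1) (hE1 : St_E1) (hE2 : St_E2) : St_E3 := by
  intro A C g L h
  obtain ⟨cD, hcD⟩ := hD1 A C g L h
  obtain ⟨cE, hcE⟩ := hE2 A C g L h
  have hA1' : A ≤ 1 / 2 := h.A1
  have hA0 : 0 < A := h.A0
  refine ⟨max (max cD cE) 32, fun c hc R β b η hR hβ hβA hb hη => ?_⟩
  have hc1 : cD ≤ c := le_trans (le_trans (le_max_left _ _) (le_max_left _ _)) hc
  have hc2 : cE ≤ c := le_trans (le_trans (le_max_right _ _) (le_max_left _ _)) hc
  have hc3 : 32 ≤ c := le_trans (le_max_right _ _) hc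
  obtain ⟨η', hη', R2, L0, hmain⟩ := hE1 (2 * A) R β b η (by linarith) hR hβ hβA hb hη
  filter_upwards [hcD c hc1 η' hη' R2, hcE c hc2 η' hη', gr_of_TS h c hc3, h.lim.eventually_ge_atTop L0] with j hd he hg hL p hp hp'
  obtain ⟨hv, hg⟩ := hg
  by_contra hcon
  push Not at hcon
  have hne : Real.exp (-(L j * A)) * Real.exp (L j * A) = 1 := by
    rw [← Real.exp_add]; simp
  have hnorm : ∀ z : ℂ, ‖F (g j) (vv c L j) z * (Real.exp (-(L j * A)) : ℂ)‖ =
      ‖F (g j) (vv c L j) z‖ * Real.exp (-(L j * A)) := by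
    intro z
    rw [norm_mul, Complex.norm_real, Real.norm_of_nonneg (Real.exp_pos _).le]
  have key := hmain (fun z => F (g j) (vv c L j) z * (Real.exp (-(L j * A)) : ℂ)) (L j) hL
    ((hA1 (g j) (vv c L j) (h.ent j) hv hg).mul_const _) (fun z h1 h2 => ?_) p hp hp' (fun z hz => ?_)
  · obtain ⟨z, hz, hz'⟩ := he
    have := key z hz
    rw [hnorm] at this
    have h3 : Real.exp (L j * (A - η')) * Real.exp (-(L j * A)) = Real.exp (-(L j * η')) := by
      rw [← Real.exp_add]; congr 1; ring
    have := mul_le_mul_of_nonneg_right hz' (Real.exp_pos (-(L j * A))).le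
    linarith
  · rw [hnorm]
    have := mul_le_mul_of_nonneg_right (hd z h1 h2) (Real.exp_pos (-(L j * A))).le
    refine this.trans (le_of_eq ?_)
    rw [← Real.exp_add]; congr 1; ring
  · rw [hnorm]
    have := mul_le_mul_of_nonneg_right (hcon z hz).le (Real.exp_pos (-(L j * A))).le
    refine this.trans (le_of_eq ?_)
    rw [← Real.exp_add]; congr 1; ring

end Pool.Agent.Helper59.LQ
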