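import Pool.Agent.Helper75.LQ.Sts

/-! Basic bounds for Gaussian averages. -/

set_option autoImplicit false

open Complex MeasureTheory Filter Topology

namespace Pool.Agent.Helper59.LQ

open Pool.Agent.Helper75.LQ

theorem norm_ga (v : ℝ) (w σ : ℝ) :
    ‖ga v (w + I * σ)‖ = Real.exp (-(1 / (2 * v)) * w ^ 2) * (Real.exp (σ ^ 2 / (2 * v)) / Real.sqrt (2 * Real.pi * v)) := by
  unfold ga
  rw [norm_div, Complex.norm_exp, Complex.norm_real, Real.norm_of_nonneg (Real.sqrt_nonneg _), ← mul_div_assoc,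
    ← Real.exp_add]
  congr 2
  have : (-((w : ℂ) + I * σ) ^ 2 / (2 * (v : ℂ))) = (((-(w ^ 2) + σ ^ 2) / (2 * v) : ℝ) : ℂ) + (((-(2 * w * σ)) / (2 * v) : ℝ) : ℂ) * I := by
    push_cast
    rw [div_mul_eq_mul_div, ← add_div]
    congr 1
    have hI : I ^ 2 = -1 := Complex.I_sq
    linear_combination (-(σ : ℂ) ^ 2) * hI
  rw [this]
  simp only [Complex.add_re, Complex.ofReal_re, Complex.mul_re, Complex.ofReal_im, Complex.I_re, Complex.I_im]
  ring

theorem gauss_bound (v : ℝ) (hv : 0 < v) (h : ℝ → ℂ) (K1 K2 : ℝ) (_hK1 : 0 ≤ K1) (hK2 : 0 ≤ K2)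
    (hh : ∀ w, ‖h w‖ ≤ K1 + K2 * Real.exp (w ^ 2 / (4 * v))) (σ : ℝ) :
    ‖∫ w : ℝ, h w * ga v (w + I * σ)‖ ≤ Real.exp (σ ^ 2 / (2 * v)) * (K1 + 2 * K2) := by
  have hb1 : 0 < 1 / (2 * v) := by positivity
  have hb2 : 0 < 1 / (4 * v) := by positivity
  have i1 : Integrable (fun w : ℝ => Real.exp (-(1 / (2 * v)) * w ^ 2)) := integrable_exp_neg_mul_sq hb1
  have i2 : Integrable (fun w : ℝ => Real.exp (-(1 / (4 * v)) * w ^ 2)) := integrable_exp_neg_mul_sq hb2
  have hi : Integrable (fun w : ℝ => (K1 * Real.exp (-(1 / (2 * v)) * w ^ 2) + K2 * Real.exp (-(1 / (4 * v)) * w ^ 2)) *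
      (Real.exp (σ ^ 2 / (2 * v)) / Real.sqrt (2 * Real.pi * v))) :=
    ((i1.const_mul K1).add (i2.const_mul K2)).mul_const _
  have hs : 0 < Real.sqrt (2 * Real.pi * v) := Real.sqrt_pos.2 (by positivity)
  refine (norm_integral_le_of_norm_le hi (Filter.Eventually.of_forall fun w => ?_)).trans ?_
  · rw [norm_mul, norm_ga]
    have he : Real.exp (-(1 / (4 * v)) * w ^ 2) = Real.exp (w ^ 2 / (4 * v)) * Real.exp (-(1 / (2 * v)) * w ^ 2) := by
      rw [← Real.exp_add]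
      congr 1
      field_simp
      ring
    rw [he]
    have := hh w
    calc ‖h w‖ * (Real.exp (-(1 / (2 * v)) * w ^ 2) * (Real.exp (σ ^ 2 / (2 * v)) / Real.sqrt (2 * Real.pi * v)))
        ≤ (K1 + K2 * Real.exp (w ^ 2 / (4 * v))) *
          (Real.exp (-(1 / (2 * v)) * w ^ 2) * (Real.exp (σ ^ 2 / (2 * v)) / Real.sqrt (2 * Real.pi * v))) := by
          apply mul_le_mul_of_nonneg_right this
          positivity
      _ = _ := by ring
  · rw [integral_mul_const, integral_add (i1.const_mul K1) (i2.const_mul K2), integral_const_mul, integral_const_mul,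
      integral_gaussian, integral_gaussian]
    have e1 : Real.pi / (1 / (2 * v)) = 2 * Real.pi * v := by field_simp
    have e2 : Real.sqrt (Real.pi / (1 / (4 * v))) ≤ 2 * Real.sqrt (2 * Real.pi * v) := by
      have : Real.pi / (1 / (4 * v)) = 2 * (2 * Real.pi * v) := by field_simp; ring
      rw [this, Real.sqrt_mul (by norm_num)]
      apply mul_le_mul_of_nonneg_right _ hs.le
      rw [Real.sqrt_le_left (by norm_num)]
      norm_num
    rw [e1]
    have : (K1 * Real.sqrt (2 * Real.pi * v) + K2 * Real.sqrt (Real.pi / (1 / (4 * v)))) *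
        (Real.exp (σ ^ 2 / (2 * v)) / Real.sqrt (2 * Real.pi * v)) ≤
        (K1 * Real.sqrt (2 * Real.pi * v) + K2 * (2 * Real.sqrt (2 * Real.pi * v))) *
        (Real.exp (σ ^ 2 / (2 * v)) / Real.sqrt (2 * Real.pi * v)) := by
      apply mul_le_mul_of_nonneg_right _ (by positivity)
      have := mul_le_mul_of_nonneg_left e2 hK2
      linarith
    refine this.trans (le_of_eq ?_)
    field_simp

theorem gauss_bound' (v : ℝ) (hv : 0 < v) (h : ℝ → ℂ) (K1 K2 : ℝ) (_hK1 : 0 ≤ K1) (hK2 : 0 ≤ K2)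
    (hh : ∀ w, ‖h w‖ ≤ K1 + K2 * Real.exp (w ^ 2 / (4 * v))) :
    ‖∫ w : ℝ, h w * ga v w‖ ≤ K1 + 2 * K2 := by
  have := gauss_bound v hv h K1 K2 _hK1 hK2 hh 0
  simpa using this

/-- growth for large `j` -/
theorem gr_of_TS {A C : ℝ} {g : ℕ → ℂ → ℂ} {L : ℕ → ℝ} (h : TS A C g L) (c : ℝ) (hc : 32 ≤ c) :
    ∀ᶠ j in atTop, 0 < vv c L j ∧ Gr (g j) (vv c L j) := by
  obtain ⟨B, hB⟩ := h.glob 1 one_pos
  filter_upwards [hB, h.lim.eventually_gt_atTop 0] with j hj hL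
  have hc0 : 0 < c := by linarith
  refine ⟨by unfold vv; positivity, Real.exp (L j * B), L j, (Real.exp_pos _).le, hL.le, ?_, fun z => ?_⟩
  · unfold vv
    have : 32 * L j * (1 / (c * L j)) = 32 / c := by field_simp
    rw [this, div_le_one hc0]
    exact hc
  · refine (hj z).trans (le_of_eq ?_)
    rw [← Real.exp_add]
    congr 1
    ring

/-- the bound for `g (z - w)` in terms of a bound for `|w| ≤ 1` -/
theorem tail_bound {C L c R : ℝ} (hC : 10 ≤ C) (hL : 1 ≤ L) (hc : 8 * C ≤ c) (x w : ℝ) (hx : |x| ≤ R)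
    (hw : 1 < |w|) :
    Real.exp (C * L + C * |x - w|) ≤ Real.exp (C * R) * Real.exp (w ^ 2 / (4 * (1 / (c * L)))) := by
  rw [← Real.exp_add]
  apply Real.exp_le_exp.2
  have hc0 : 0 < c := by linarith
  have h1 : |x - w| ≤ R + |w| := (abs_sub _ _).trans (by linarith)
  have h2 : |w| ≤ w ^ 2 := by
    rw [← sq_abs]; nlinarith
  have h3 : 1 ≤ w ^ 2 := by linarith
  have h4 : w ^ 2 / (4 * (1 / (c * L))) = c * L * w ^ 2 / 4 := by field_simp
  rw [h4]
  have h5 : C * |x - w| ≤ C * R + C * w ^ 2 := by nlinarith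
  have h6 : C * L + C * w ^ 2 ≤ 2 * C * L * w ^ 2 := by
    have : C * L ≤ C * L * w ^ 2 := by nlinarith [mul_nonneg (by linarith : (0:ℝ) ≤ C) (by linarith : (0:ℝ) ≤ L)]
    have : C * w ^ 2 ≤ C * L * w ^ 2 := by nlinarith [mul_nonneg (by linarith : (0:ℝ) ≤ C) (by linarith : (0:ℝ) ≤ w ^ 2)]
    nlinarith
  have h7 : 2 * C * L * w ^ 2 ≤ c * L * w ^ 2 / 4 := by
    have : 0 ≤ L * w ^ 2 := by positivity
    nlinarith
  linarith

end Pool.Agent.Helper59.LQ
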