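import Pool.Agent.Helper59.LQ.ZB

/-! The factor between `xi` and `ζ`: strip and plane. -/

set_option autoImplicit false
set_option maxHeartbeats 1000000

open Complex Filter Topology Set
open Pool.Agent.H306R2 (Zt)
open Pool.Agent.Helper85.LG

namespace Pool.Agent.Helper59.LQ

lemma xi_sym (w : ℂ) (x : ℝ) : ‖xi (1 / 2 + w + x * I)‖ = ‖xi (1 / 2 + (-(starRingEnd ℂ) w) + x * I)‖ := by
  have h1 : xi (1 / 2 + w + x * I) = (starRingEnd ℂ) (xi (1 / 2 + (-(starRingEnd ℂ) w) + x * I)) := by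
    rw [← xi_conj, ← xi_one_sub]
    congr 1
    apply Complex.ext
    · simp
      ring
    · simp
      ring
  rw [h1, Complex.norm_conj]

lemma xi_right : ∃ K : ℝ, 0 ≤ K ∧ ∀ x : ℝ, 3 ≤ x → ∀ w : ℂ, 0 ≤ w.re →
    ‖xi (1 / 2 + w + x * I)‖ ≤ x * ‖Pg (1 / 2 + x * I)‖ *
      Real.exp (4 * Real.log x + K * |w.im| + w.re / 2 * (K + w.re + Real.log x)) := by
  obtain ⟨CV, hCV0, hV⟩ := Pg_vert
  obtain ⟨CH, hCH0, hH⟩ := Pg_hor
  refine ⟨CV + CH + 5, by positivity, fun x hx w hw => ?_⟩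
  set σ : ℝ := w.re with hσ
  set s : ℝ := w.im with hs
  have hx0 : 0 < x := by linarith
  have hlx : 1 ≤ Real.log x := by
    rw [Real.le_log_iff_exp_le hx0]
    have := Real.exp_one_lt_d9
    linarith
  have ez : (1 / 2 + w + x * I : ℂ) = ((1 / 2 + σ : ℝ) : ℂ) + ((x + s : ℝ) : ℂ) * I := by
    apply Complex.ext
    · simp [hσ]
    · simp [hs]; ring
  have ex : (((1 / 2 : ℝ) : ℂ) + (x : ℂ) * I) = 1 / 2 + x * I := by push_cast; ring
  set z : ℂ := ((1 / 2 + σ : ℝ) : ℂ) + ((x + s : ℝ) : ℂ) * I with hz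
  have hre : z.re = 1 / 2 + σ := by simp [hz]
  have him : z.im = x + s := by simp [hz]
  rw [ez, xi_eq (by rw [hre]; linarith), norm_mul]
  have hsx : 0 ≤ |s| := abs_nonneg s
  have n1 : ‖z‖ + 1 ≤ 2 * x * Real.exp (|s| + σ) := by
    have h1 := Complex.norm_le_abs_re_add_abs_im z
    rw [hre, him, abs_of_nonneg (by linarith : 0 ≤ 1 / 2 + σ)] at h1
    have h2 : |x + s| ≤ x + |s| := (abs_add_le _ _).trans (by rw [abs_of_nonneg hx0.le])
    have h3 := Real.add_one_le_exp (|s| + σ)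
    nlinarith
  have n2 : ‖Zt z‖ ≤ 12 * x ^ 2 * Real.exp (2 * |s| + 2 * σ) := by
    refine (Pool.Agent.H306R2.Zt_norm_le (by rw [hre]; linarith)).trans ?_
    have h1 := pow_le_pow_left₀ (by positivity) n1 2
    have h2 : (2 * x * Real.exp (|s| + σ)) ^ 2 = 4 * x ^ 2 * Real.exp (2 * |s| + 2 * σ) := by
      rw [mul_pow, ← Real.exp_nat_mul]
      push_cast
      ring_nf
    rw [h2] at h1
    linarith
  have h1 := (hH x (1 / 2) (1 / 2 + σ) (by linarith) (by norm_num) (by linarith)).1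
  have v1 := hV (1 / 2 + σ) (by linarith) (x + s) x
  have e1 : x + s - x = s := by ring
  have e2 : 1 / 2 + σ - 1 / 2 = σ := by ring
  rw [e1] at v1
  rw [e2, ex] at h1
  have hl : Real.log (x + (1 / 2 + σ)) ≤ Real.log x + 1 + σ := by
    have h4 : x + (1 / 2 + σ) ≤ x * (2 + σ) := by nlinarith
    have h5 := Real.log_le_log (by linarith) h4
    rw [Real.log_mul hx0.ne' (by linarith)] at h5
    have h6 := Real.log_le_sub_one_of_pos (show 0 < 2 + σ by linarith)
    linarith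
  have p0 : 0 < ‖Pg (1 / 2 + x * I)‖ := norm_pos_iff.2 (Pg_ne (by simp))
  have n3 : ‖Pg z‖ ≤ Real.exp (CV * |s| + σ / 2 * (CH + (Real.log x + 1 + σ))) * ‖Pg (1 / 2 + x * I)‖ := by
    refine v1.trans ((mul_le_mul_of_nonneg_left h1 (Real.exp_pos _).le).trans ?_)
    rw [← mul_assoc, ← Real.exp_add]
    apply mul_le_mul_of_nonneg_right _ p0.le
    apply Real.exp_le_exp.2
    have : σ / 2 * (CH + Real.log (x + (1 / 2 + σ))) ≤ σ / 2 * (CH + (Real.log x + 1 + σ)) :=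
      mul_le_mul_of_nonneg_left (by linarith) (by linarith)
    linarith
  have n4 : 12 * x ≤ Real.exp (4 * Real.log x) := by
    have h4 : 4 * Real.log x = 3 * Real.log x + Real.log x := by ring
    rw [h4, Real.exp_add, Real.exp_log hx0]
    apply mul_le_mul_of_nonneg_right _ hx0.le
    have h5 : Real.exp 3 ≤ Real.exp (3 * Real.log x) := Real.exp_le_exp.2 (by linarith)
    have h6 : Real.exp 3 = Real.exp 1 * Real.exp 1 * Real.exp 1 := by
      rw [← Real.exp_add, ← Real.exp_add]; norm_num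
    have h7 := Real.exp_one_gt_d9
    have h8 : (2.7 : ℝ) ≤ Real.exp 1 := by linarith
    have h9 : (2.7 : ℝ) * 2.7 ≤ Real.exp 1 * Real.exp 1 := mul_le_mul h8 h8 (by norm_num) (Real.exp_pos _).le
    have h10 : (2.7 : ℝ) * 2.7 * 2.7 ≤ Real.exp 1 * Real.exp 1 * Real.exp 1 := mul_le_mul h9 h8 (by norm_num) (by positivity)
    linarith
  calc ‖Zt z‖ * ‖Pg z‖ ≤ (12 * x ^ 2 * Real.exp (2 * |s| + 2 * σ)) *
        (Real.exp (CV * |s| + σ / 2 * (CH + (Real.log x + 1 + σ))) * ‖Pg (1 / 2 + x * I)‖) :=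
        mul_le_mul n2 n3 (norm_nonneg _) (by positivity)
    _ = x * ‖Pg (1 / 2 + x * I)‖ * ((12 * x) * Real.exp (2 * |s| + 2 * σ + (CV * |s| + σ / 2 * (CH + (Real.log x + 1 + σ))))) := by
        rw [Real.exp_add (2 * |s| + 2 * σ)]; ring
    _ ≤ x * ‖Pg (1 / 2 + x * I)‖ * (Real.exp (4 * Real.log x) *
        Real.exp (2 * |s| + 2 * σ + (CV * |s| + σ / 2 * (CH + (Real.log x + 1 + σ))))) := by
        apply mul_le_mul_of_nonneg_left _ (by positivity)
        exact mul_le_mul_of_nonneg_right n4 (Real.exp_pos _).le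
    _ ≤ _ := by
        apply mul_le_mul_of_nonneg_left _ (by positivity)
        rw [← Real.exp_add]
        apply Real.exp_le_exp.2
        have : 0 ≤ CH * |s| := by positivity
        have : 0 ≤ σ * CV := by positivity
        nlinarith

/-- Z6 -/
theorem z6 : ∃ C X : ℝ, ∀ x : ℝ, X ≤ x → ∀ s y : ℝ, |y| ≤ 8 →
    ‖xi (1 / 2 + y + (x + s) * I)‖ ≤ (x * ‖Pg (1 / 2 + x * I)‖) * Real.exp (C * Real.log x + C * |s|) := by
  obtain ⟨K, hK0, hK⟩ := xi_right
  have main : ∀ x : ℝ, 3 ≤ x → ∀ s y : ℝ, 0 ≤ y → y ≤ 8 →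
      ‖xi (1 / 2 + ((y : ℂ) + s * I) + x * I)‖ ≤ (x * ‖Pg (1 / 2 + x * I)‖) *
        Real.exp ((4 * K + 40) * Real.log x + (4 * K + 40) * |s|) := by
    intro x hx s y hy0 hy8
    have hx0 : 0 < x := by linarith
    have hlx : 1 ≤ Real.log x := by
      rw [Real.le_log_iff_exp_le hx0]
      have := Real.exp_one_lt_d9
      linarith
    have h := hK x hx ((y : ℂ) + s * I) (by simpa using hy0)
    have e1 : ((y : ℂ) + s * I).re = y := by simp
    have e2 : ((y : ℂ) + s * I).im = s := by simp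
    rw [e1, e2] at h
    refine h.trans ?_
    apply mul_le_mul_of_nonneg_left _ (by positivity)
    apply Real.exp_le_exp.2
    have h1 : y / 2 * (K + y + Real.log x) ≤ 4 * (K + 8 + Real.log x) :=
      mul_le_mul (by linarith) (by linarith) (by positivity) (by norm_num)
    have h2 : 0 ≤ |s| := abs_nonneg s
    have h3 : K ≤ K * Real.log x := by nlinarith
    nlinarith
  refine ⟨4 * K + 40, 3, fun x hx s y hy => ?_⟩
  have hy' := abs_le.1 hy
  have e : (1 / 2 + y + (x + s) * I : ℂ) = 1 / 2 + ((y : ℂ) + s * I) + x * I := by ring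
  rw [e]
  rcases le_total 0 y with h | h
  · exact main x hx s y h hy'.2
  · rw [xi_sym]
    have e2 : (-(starRingEnd ℂ) ((y : ℂ) + s * I)) = (((-y : ℝ)) : ℂ) + s * I := by
      apply Complex.ext <;> simp
    rw [e2]
    exact main x hx s (-y) (by linarith) (by linarith)

/-- Z7 -/
theorem z7 : ∀ δ > 0, ∃ B X : ℝ, ∀ x : ℝ, X ≤ x → ∀ w : ℂ,
    ‖xi (1 / 2 + w + x * I)‖ ≤ (x * ‖Pg (1 / 2 + x * I)‖) * Real.exp (Real.log x * (B + δ * ‖w‖ ^ 2)) := by
  intro δ hδ
  obtain ⟨K, hK0, hK⟩ := xi_right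
  have main : ∀ x : ℝ, max 3 (Real.exp (1 / δ)) ≤ x → ∀ w : ℂ, 0 ≤ w.re →
      ‖xi (1 / 2 + w + x * I)‖ ≤ (x * ‖Pg (1 / 2 + x * I)‖) *
        Real.exp (Real.log x * (4 + (2 * K + 1) ^ 2 / (2 * δ) + δ * ‖w‖ ^ 2)) := by
    intro x hx w hw
    have hx3 := (le_max_left _ _).trans hx
    have hxe := (le_max_right _ _).trans hx
    have hx0 : 0 < x := by linarith
    have hlx : 1 ≤ Real.log x := by
      rw [Real.le_log_iff_exp_le hx0]
      have := Real.exp_one_lt_d9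
      linarith
    have hlx2 : 1 ≤ δ * Real.log x := by
      have := (Real.le_log_iff_exp_le hx0).2 hxe
      rwa [div_le_iff₀ hδ, mul_comm] at this
    refine (hK x hx3 w hw).trans ?_
    apply mul_le_mul_of_nonneg_left _ (by positivity)
    apply Real.exp_le_exp.2
    set ρ : ℝ := ‖w‖ with hρ
    have hρ0 : 0 ≤ ρ := norm_nonneg w
    have h1 : |w.im| ≤ ρ := Complex.abs_im_le_norm w
    have h2 : w.re ≤ ρ := (le_abs_self _).trans (Complex.abs_re_le_norm w)
    set l : ℝ := Real.log x with hl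
    have h3 : w.re / 2 * (K + w.re + l) ≤ ρ / 2 * (K + ρ + l) :=
      mul_le_mul (by linarith) (by linarith) (by positivity) (by positivity)
    have h4 : K * |w.im| ≤ K * ρ := mul_le_mul_of_nonneg_left h1 hK0
    have h5 : (2 * K + 1) * ρ ≤ (2 * K + 1) ^ 2 / (2 * δ) + δ * ρ ^ 2 / 2 := by
      have : (2 * K + 1) ^ 2 / (2 * δ) + δ * ρ ^ 2 / 2 - (2 * K + 1) * ρ = ((2 * K + 1) - δ * ρ) ^ 2 / (2 * δ) := by
        field_simp
        ring
      have h6 : 0 ≤ ((2 * K + 1) - δ * ρ) ^ 2 / (2 * δ) := by positivity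
      linarith
    have h6 : l * ((2 * K + 1) * ρ) ≤ l * ((2 * K + 1) ^ 2 / (2 * δ) + δ * ρ ^ 2 / 2) :=
      mul_le_mul_of_nonneg_left h5 (by linarith)
    have h7 : ρ ^ 2 / 2 ≤ l * (δ * ρ ^ 2 / 2) := by
      have : 0 ≤ (δ * l - 1) * (ρ ^ 2 / 2) := mul_nonneg (by linarith) (by positivity)
      linarith
    have h8 : 0 ≤ K * ρ := by positivity
    have h9 : K * ρ ≤ l * (K * ρ) := by nlinarith
    have h10 : 0 ≤ l * ρ := by positivity
    nlinarith
  refine ⟨4 + (2 * K + 1) ^ 2 / (2 * δ), max 3 (Real.exp (1 / δ)), fun x hx w => ?_⟩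
  rcases le_total 0 w.re with h | h
  · exact main x hx w h
  · rw [xi_sym]
    have := main x hx (-(starRingEnd ℂ) w) (by simp; linarith)
    rw [norm_neg, Complex.norm_conj] at this
    exact this

end Pool.Agent.Helper59.LQ
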