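import Pool.Agent.Helper75.LQ.Zs
import Pool.Agent.Helper59.LQ.ZG

/-! Package Z9: the local sequences. -/

set_option autoImplicit false
set_option maxHeartbeats 1000000

open Complex MeasureTheory Filter Topology

namespace Pool.Agent.Helper59.LQ

open Pool.Agent.Helper75.LQ Pool.Agent.Helper75.JE
open Pool.Agent.Helper85.LG (xi Pg xi_diff xi_one_sub xi_conj Lm Pg_ne)

theorem st_Z5 : St_Z5 := by
  intro R
  exact z5 R

theorem st_Z6 : St_Z6 := z6

theorem st_Z7 : St_Z7 := z7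

/-- the local function -/
noncomputable def gl (x : ℝ) (z : ℂ) : ℂ := xi (1 / 2 + I * (x + z)) / (Nx x : ℂ)

lemma Nx_pos {x : ℝ} (hx : 0 < x) : 0 < Nx x := by
  unfold Nx
  have : 0 < ‖Pg (1 / 2 + x * I)‖ := norm_pos_iff.2 (Pg_ne (by simp))
  positivity

lemma norm_gl {x : ℝ} (hx : 0 < x) (z : ℂ) :
    ‖gl x z‖ = ‖xi (1 / 2 + ((|z.im| : ℝ) : ℂ) + ((x : ℂ) + ((z.re : ℝ) : ℂ)) * I)‖ / Nx x := by
  unfold gl
  rw [norm_div, Complex.norm_real, Real.norm_of_nonneg (Nx_pos hx).le]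
  congr 1
  have e1 : (1 / 2 + I * (x + z) : ℂ) = 1 / 2 + (((-z.im : ℝ) : ℂ) + ((z.re : ℝ) : ℂ) * I) + (x : ℂ) * I := by
    apply Complex.ext
    · simp
    · simp
      ring
  have e2 : (1 / 2 + ((|z.im| : ℝ) : ℂ) + ((x : ℂ) + ((z.re : ℝ) : ℂ)) * I : ℂ) =
      1 / 2 + (((|z.im| : ℝ) : ℂ) + ((z.re : ℝ) : ℂ) * I) + (x : ℂ) * I := by ring
  rw [e1, e2]
  rcases le_total 0 z.im with h | h
  · rw [xi_sym, abs_of_nonneg h]
    congr 3
    apply Complex.ext <;> simp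
  · rw [abs_of_nonpos h]

lemma gl_diff (x : ℝ) : Differentiable ℂ (gl x) := by
  unfold gl
  apply Differentiable.div_const
  apply xi_diff.comp
  fun_prop

lemma gl_re (x : ℝ) (z : ℂ) : gl x ((starRingEnd ℂ) z) = (starRingEnd ℂ) (gl x z) := by
  unfold gl
  rw [map_div₀, Complex.conj_ofReal, ← xi_conj, ← xi_one_sub]
  congr 2
  apply Complex.ext
  · simp
    ring
  · simp

lemma gl_Lag (x s : ℝ) (m : ℕ) : Lag (gl x) s m = Lm (x + s) m / Nx x ^ 2 := by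
  have e : S (gl x) s = fun η => Pool.Agent.Helper85.LG.G (x + s) η / ((Nx x ^ 2 : ℝ) : ℂ) := by
    funext η
    unfold S gl Pool.Agent.Helper85.LG.G
    have e1 : xi (1 / 2 + I * (x + (s + I * η))) = xi (1 / 2 + η - ((x + s : ℝ) : ℂ) * I) := by
      rw [← xi_one_sub]
      congr 1
      push_cast
      linear_combination (-η) * Complex.I_mul_I
    have e2 : (1 / 2 + I * (x + (s - I * η)) : ℂ) = 1 / 2 + η + ((x + s : ℝ) : ℂ) * I := by
      push_cast
      linear_combination (-η) * Complex.I_mul_I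
    rw [e1, e2]
    push_cast
    rw [div_mul_div_comm, mul_comm (xi (1 / 2 + η - (↑x + ↑s) * I)), sq]
  unfold Lag
  rw [e]
  unfold tc Lm Pool.Agent.Helper85.LG.tc
  rw [iteratedDeriv_div_const, div_right_comm, Complex.div_ofReal_re]

/-- upper bound for `ζ` at distance at least `2A` from the line -/
lemma zup (hZ3 : St_Z3) (hZ4 : St_Z4) {A : ℝ} (hA0 : 0 < A) (hA : A ≤ 1 / 2) (hU : UpA A)
    (hF : ∀ ε > 0, Few (1 / 2 + (2 * A + ε))) {θ : ℝ} (h12 : 1 / 2 ≤ θ) (h54 : θ ≤ 5 / 4) (hθA : θ ≤ 1 / 2 + 2 * A)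
    (hθ : ∀ ε > 0, Few (θ + ε)) (ε : ℝ) (hε : 0 < ε) : ∃ T : ℝ, ∀ y t : ℝ, 2 * A ≤ y → y ≤ 8 → T ≤ t →
    ‖riemannZeta (((1 / 2 + y : ℝ) : ℂ) + (t : ℂ) * I)‖ ≤ t ^ ε := by
  rcases eq_or_lt_of_le hA with he | hlt
  · obtain ⟨T, hT⟩ := hZ3 θ h12 hθ (3 / 2) (by linarith) ε hε
    refine ⟨T, fun y t hy hy8 ht => ?_⟩
    have e1 : (((1 / 2 + y : ℝ) : ℂ) + (t : ℂ) * I).re = 1 / 2 + y := by simp
    have e2 : (((1 / 2 + y : ℝ) : ℂ) + (t : ℂ) * I).im = t := by simp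
    have := (hT (((1 / 2 + y : ℝ) : ℂ) + (t : ℂ) * I) (by rw [e1]; linarith) (by rw [e1]; linarith) (by rw [e2]; exact ht)).2
    rwa [e2] at this
  · set δ : ℝ := min (ε / 2) (1 / 2 - A) with hδ
    have hδ0 : 0 < δ := lt_min (by linarith) (by linarith)
    have hδ1 : δ ≤ ε / 2 := min_le_left _ _
    have hδ2 : δ ≤ 1 / 2 - A := min_le_right _ _
    have hU' : UpA (A + δ) := by
      intro ε' hε'
      obtain ⟨C, hC⟩ := hU ε' hε'
      refine ⟨C, fun t ht => (hC t ht).trans ?_⟩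
      have hC0 : 0 ≤ C := by
        have := (norm_nonneg _).trans (hC 1 le_rfl)
        simpa using this
      apply mul_le_mul_of_nonneg_left _ hC0
      exact Real.rpow_le_rpow_of_exponent_le ht (by linarith)
    have hF' : ∀ ε > 0, Few (1 / 2 + (2 * (A + δ) + ε)) := fun ε hε => (hF ε hε).mono (by linarith)
    obtain ⟨T1, hT1⟩ := hZ4 (A + δ) (by linarith) (by linarith) hU' hF' (ε / 2) (by linarith)
    obtain ⟨T2, hT2⟩ := hZ3 θ h12 hθ (1 / 2 + 2 * (A + δ)) (by linarith) ε hε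
    refine ⟨max 1 (max T1 T2), fun y t hy hy8 ht => ?_⟩
    have ht1 : 1 ≤ t := (le_max_left _ _).trans ht
    have ht2 : T1 ≤ t := ((le_max_left _ _).trans (le_max_right _ _)).trans ht
    have ht3 : T2 ≤ t := ((le_max_right _ _).trans (le_max_right _ _)).trans ht
    have e1 : (((1 / 2 + y : ℝ) : ℂ) + (t : ℂ) * I).re = 1 / 2 + y := by simp
    have e2 : (((1 / 2 + y : ℝ) : ℂ) + (t : ℂ) * I).im = t := by simp
    rcases le_total y (2 * (A + δ)) with h | h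
    · have := hT1 (((1 / 2 + y : ℝ) : ℂ) + (t : ℂ) * I) (by rw [e1]; linarith) (by rw [e1]; linarith) (by rw [e2]; exact ht2)
      rw [e1, e2] at this
      exact this.trans (Real.rpow_le_rpow_of_exponent_le ht1 (by linarith))
    · have := (hT2 (((1 / 2 + y : ℝ) : ℂ) + (t : ℂ) * I) (by rw [e1]; linarith) (by rw [e1]; linarith) (by rw [e2]; exact ht3)).2
      rwa [e2] at this

theorem st_Z9 (hZ1 : St_Z1) (hZ2 : St_Z2) (hZ3 : St_Z3) (hZ4 : St_Z4) : St_Z9 := by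
  intro hLag hLH
  obtain ⟨A, hA0, hA12, hUp, hbig⟩ := hZ1 hLH
  have hF : ∀ ε > 0, Few (1 / 2 + (2 * A + ε)) := fun ε hε => hZ2 A hA0.le hA12 hUp hLag ε hε
  have hch : ∀ j : ℕ, ∃ t : ℝ, max (j : ℝ) 3 ≤ t ∧ t ^ (A - 1 / ((j : ℝ) + 1)) ≤ ‖riemannZeta (1 / 2 + t * I)‖ :=
    fun j => hbig _ (by positivity) _
  choose x hx1 hx2 using hch
  have hx3 : ∀ j, 3 ≤ x j := fun j => (le_max_right _ _).trans (hx1 j)
  have hxj : ∀ j : ℕ, (j : ℝ) ≤ x j := fun j => (le_max_left _ _).trans (hx1 j)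
  have hx0 : ∀ j, 0 < x j := fun j => by linarith [hx3 j]
  have hxlim : Tendsto x atTop atTop := tendsto_atTop_mono hxj tendsto_natCast_atTop_atTop
  have hLlim : Tendsto (fun j => Real.log (x j)) atTop atTop := Real.tendsto_log_atTop.comp hxlim
  have hL1 : ∀ j, 1 ≤ Real.log (x j) := by
    intro j
    rw [Real.le_log_iff_exp_le (hx0 j)]
    have := Real.exp_one_lt_d9
    linarith [hx3 j]
  have hN : ∀ j, 0 < Nx (x j) := fun j => Nx_pos (hx0 j)
  have hlog2 : Real.log 2 ≤ 1 := by linarith [Real.log_two_lt_d9]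
  -- the exponent `θ`
  obtain ⟨θ, h12, h54, hθA, hθ⟩ : ∃ θ : ℝ, 1 / 2 ≤ θ ∧ θ ≤ 5 / 4 ∧ θ ≤ 1 / 2 + 2 * A ∧ ∀ ε > 0, Few (θ + ε) := by
    rcases le_total (1 / 2 + 2 * A) (5 / 4) with h | h
    · exact ⟨1 / 2 + 2 * A, by linarith, h, le_rfl, fun ε hε => (hF ε hε).mono (by linarith)⟩
    · exact ⟨5 / 4, by norm_num, le_rfl, h, fun ε hε => few_one.mono (by linarith)⟩
  -- logarithms of heights
  have hht : ∀ R : ℝ, ∀ᶠ j in atTop, ∀ s : ℝ, |s| ≤ R → 1 ≤ x j + s ∧ Real.log (x j) - 1 ≤ Real.log (x j + s) ∧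
      Real.log (x j + s) ≤ Real.log (x j) + 1 := by
    intro R
    filter_upwards [hxlim.eventually_ge_atTop (2 * R + 2)] with j hj s hs
    have hs2 := abs_le.1 hs
    have h1 : x j / 2 ≤ x j + s := by linarith
    have h2 : x j + s ≤ 2 * x j := by linarith
    have h3 : 1 ≤ x j + s := by linarith [hx3 j]
    have l1 := Real.log_le_log (by linarith [hx3 j]) h1
    have l2 := Real.log_le_log (by linarith) h2
    rw [Real.log_div (hx0 j).ne' (by norm_num)] at l1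
    rw [Real.log_mul (by norm_num) (hx0 j).ne'] at l2
    exact ⟨h3, by linarith, by linarith⟩
  have hevT : ∀ T R : ℝ, ∀ᶠ j in atTop, ∀ s : ℝ, |s| ≤ R → T ≤ x j + s := by
    intro T R
    filter_upwards [hxlim.eventually_ge_atTop (T + R)] with j hj s hs
    have hs2 := abs_le.1 hs
    linarith
  obtain ⟨C6, X6, h6⟩ := z6
  -- local comparison
  have hcmp : ∀ R : ℝ, ∃ C5 : ℝ, ∀ᶠ j in atTop, ∀ z : ℂ, |z.re| ≤ R → |z.im| ≤ 8 →
      ‖gl (x j) z‖ ≤ Real.exp (C5 + |z.im| / 2 * Real.log (x j)) *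
        ‖riemannZeta (((1 / 2 + |z.im| : ℝ) : ℂ) + ((x j + z.re : ℝ) : ℂ) * I)‖ ∧
      Real.exp (-C5 + |z.im| / 2 * Real.log (x j)) *
        ‖riemannZeta (((1 / 2 + |z.im| : ℝ) : ℂ) + ((x j + z.re : ℝ) : ℂ) * I)‖ ≤ ‖gl (x j) z‖ := by
    intro R
    obtain ⟨C5, X5, h5⟩ := z5 R
    refine ⟨C5, ?_⟩
    filter_upwards [hxlim.eventually_ge_atTop X5] with j hj z hz hz'
    obtain ⟨a1, a2⟩ := h5 (x j) hj z.re |z.im| hz (abs_nonneg _) hz'
    have er : x j ^ (|z.im| / 2) = Real.exp (|z.im| / 2 * Real.log (x j)) := by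
      rw [Real.rpow_def_of_pos (hx0 j), mul_comm]
    have ez : (((1 / 2 + |z.im| : ℝ) : ℂ) + ((x j + z.re : ℝ) : ℂ) * I) =
        1 / 2 + ((|z.im| : ℝ) : ℂ) + ((x j : ℂ) + ((z.re : ℝ) : ℂ)) * I := by push_cast; ring
    rw [norm_gl (hx0 j), ez, Real.exp_add, Real.exp_add, ← er]
    have hNj := hN j
    constructor
    · rw [div_le_iff₀ hNj]
      refine a1.trans (le_of_eq ?_)
      unfold Nx; ring
    · rw [le_div_iff₀ hNj]
      refine le_trans (le_of_eq ?_) a2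
      unfold Nx; ring
  refine ⟨A, max 10 C6, fun j => gl (x j), fun j => Real.log (x j), ?_⟩
  refine { A0 := hA0, A1 := hA12, C1 := le_max_left _ _, lim := hLlim, ent := fun j => gl_diff _,
           re := fun j z => gl_re _ _, up0 := ?_, up1 := ?_, lo1 := ?_, big := ?_, strip := ?_, glob := ?_, pos := ?_ }
  · -- up0
    intro η hη R
    obtain ⟨C5, h5⟩ := hcmp R
    obtain ⟨T4, h4⟩ := hZ4 A hA0 hA12 hUp hF (η / 4) (by linarith)
    filter_upwards [h5, hht R, hevT T4 R, hLlim.eventually_ge_atTop ((C5 + 1 / 2 + η / 4) / (3 * η / 4))] with j a1 a2 a3 a4 z hz hz'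
    have hz8 : |z.im| ≤ 8 := by linarith
    obtain ⟨b1, -⟩ := a1 z hz hz8
    obtain ⟨c1, c2, c3⟩ := a2 z.re hz
    have c4 := a3 z.re hz
    rw [div_le_iff₀ (by positivity)] at a4
    have hy0 : 0 ≤ |z.im| := abs_nonneg _
    have e1 : ((((1 / 2 + |z.im| : ℝ) : ℂ) + ((x j + z.re : ℝ) : ℂ) * I)).re = 1 / 2 + |z.im| := by simp
    have e2 : ((((1 / 2 + |z.im| : ℝ) : ℂ) + ((x j + z.re : ℝ) : ℂ) * I)).im = x j + z.re := by simp
    have d1 := h4 (((1 / 2 + |z.im| : ℝ) : ℂ) + ((x j + z.re : ℝ) : ℂ) * I) (by rw [e1]; linarith) (by rw [e1]; linarith)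
      (by rw [e2]; exact c4)
    rw [e1, e2] at d1
    refine b1.trans ((mul_le_mul_of_nonneg_left d1 (Real.exp_pos _).le).trans ?_)
    rw [Real.rpow_def_of_pos (by linarith), ← Real.exp_add]
    apply Real.exp_le_exp.2
    have f1 : Real.log (x j + z.re) * (A - (1 / 2 + |z.im| - 1 / 2) / 2 + η / 4) ≤
        (Real.log (x j) + 1) * (A - (1 / 2 + |z.im| - 1 / 2) / 2 + η / 4) :=
      mul_le_mul_of_nonneg_right c3 (by linarith)
    nlinarith
  · -- up1
    intro η hη R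
    obtain ⟨C5, h5⟩ := hcmp R
    obtain ⟨T4, h4⟩ := zup hZ3 hZ4 hA0 hA12 hUp hF h12 h54 hθA hθ (η / 2) (by linarith)
    filter_upwards [h5, hht R, hevT T4 R, hLlim.eventually_ge_atTop ((C5 + η / 2) / (η / 2))] with j a1 a2 a3 a4 z hz hz' hz8
    obtain ⟨b1, -⟩ := a1 z hz hz8
    obtain ⟨c1, c2, c3⟩ := a2 z.re hz
    have c4 := a3 z.re hz
    rw [div_le_iff₀ (by positivity)] at a4
    have d1 := h4 |z.im| (x j + z.re) hz' hz8 c4
    refine b1.trans ((mul_le_mul_of_nonneg_left d1 (Real.exp_pos _).le).trans ?_)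
    rw [Real.rpow_def_of_pos (by linarith), ← Real.exp_add]
    apply Real.exp_le_exp.2
    nlinarith
  · -- lo1
    intro η hη R
    obtain ⟨C5, h5⟩ := hcmp R
    obtain ⟨T4, h4⟩ := hZ3 θ h12 hθ (1 / 2 + 2 * A + η) (by linarith) (η / 2) (by linarith)
    filter_upwards [h5, hht R, hevT T4 R, hLlim.eventually_ge_atTop ((C5 + η / 2) / (η / 2))] with j a1 a2 a3 a4 z hz hz' hz8
    have hab : |z.im| = z.im := abs_of_nonneg (by linarith)
    obtain ⟨-, b1⟩ := a1 z hz (by rw [hab]; exact hz8)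
    obtain ⟨c1, c2, c3⟩ := a2 z.re hz
    have c4 := a3 z.re hz
    rw [div_le_iff₀ (by positivity)] at a4
    have e1 : ((((1 / 2 + |z.im| : ℝ) : ℂ) + ((x j + z.re : ℝ) : ℂ) * I)).re = 1 / 2 + |z.im| := by simp
    have e2 : ((((1 / 2 + |z.im| : ℝ) : ℂ) + ((x j + z.re : ℝ) : ℂ) * I)).im = x j + z.re := by simp
    have d1 := (h4 (((1 / 2 + |z.im| : ℝ) : ℂ) + ((x j + z.re : ℝ) : ℂ) * I) (by rw [e1, hab]; linarith)
      (by rw [e1, hab]; linarith) (by rw [e2]; exact c4)).1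
    rw [e2] at d1
    refine le_trans ?_ ((mul_le_mul_of_nonneg_left d1 (Real.exp_pos _).le).trans b1)
    rw [Real.rpow_def_of_pos (by linarith), ← Real.exp_add]
    apply Real.exp_le_exp.2
    rw [hab]
    nlinarith
  · -- big
    intro η hη
    obtain ⟨C5, h5⟩ := hcmp 0
    have hinv : ∀ᶠ j : ℕ in atTop, 1 / ((j : ℝ) + 1) ≤ η / 2 := by
      have := tendsto_one_div_add_atTop_nhds_zero_nat (𝕜 := ℝ)
      exact this.eventually_le_const (by linarith)
    filter_upwards [h5, hinv, hLlim.eventually_ge_atTop (C5 / (η / 2))] with j a1 a2 a4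
    obtain ⟨-, b1⟩ := a1 0 (by simp) (by simp)
    rw [div_le_iff₀ (by positivity)] at a4
    have e1 : ((((1 / 2 + |(0 : ℂ).im| : ℝ) : ℂ) + ((x j + (0 : ℂ).re : ℝ) : ℂ) * I)) = 1 / 2 + x j * I := by
      simp
    have e2 : |(0 : ℂ).im| / 2 * Real.log (x j) = 0 := by simp
    rw [e1, e2] at b1
    refine le_trans ?_ ((mul_le_mul_of_nonneg_left (hx2 j) (Real.exp_pos _).le).trans b1)
    rw [Real.rpow_def_of_pos (hx0 j), ← Real.exp_add]
    apply Real.exp_le_exp.2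
    have := hL1 j
    nlinarith
  · -- strip
    filter_upwards [hxlim.eventually_ge_atTop X6] with j hj z hz
    rw [norm_gl (hx0 j), div_le_iff₀ (hN j), mul_comm (Real.exp _)]
    refine (h6 (x j) hj z.re |z.im| (by rw [abs_abs]; exact hz)).trans ?_
    unfold Nx
    apply mul_le_mul_of_nonneg_left _ (by have := hx0 j; positivity)
    apply Real.exp_le_exp.2
    have h1 : C6 * Real.log (x j) ≤ max 10 C6 * Real.log (x j) :=
      mul_le_mul_of_nonneg_right (le_max_right _ _) (by linarith [hL1 j])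
    have h2 : C6 * |z.re| ≤ max 10 C6 * |z.re| := mul_le_mul_of_nonneg_right (le_max_right _ _) (abs_nonneg _)
    linarith
  · -- glob
    intro δ hδ
    obtain ⟨B, X, hB⟩ := z7 δ hδ
    refine ⟨B, ?_⟩
    filter_upwards [hxlim.eventually_ge_atTop X] with j hj z
    have h1 := hB (x j) hj (I * z)
    have e1 : (1 / 2 + I * z + (x j : ℂ) * I : ℂ) = 1 / 2 + I * (x j + z) := by ring
    rw [e1, norm_mul, Complex.norm_I, one_mul] at h1
    unfold gl
    rw [norm_div, Complex.norm_real, Real.norm_of_nonneg (hN j).le, div_le_iff₀ (hN j), mul_comm (Real.exp _)]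
    exact h1
  · -- pos
    intro κ hκ R
    obtain ⟨X, hX⟩ := hLag (κ / 2) (by linarith)
    filter_upwards [hht R, hevT X R] with j a2 a3 s hs m hm
    obtain ⟨c1, c2, c3⟩ := a2 s hs
    rw [gl_Lag]
    apply div_nonneg _ (sq_nonneg _)
    apply hX _ (a3 s hs)
    have := hL1 j
    nlinarith

end Pool.Agent.Helper59.LQ
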