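import Pool.Agent.Helper75.LQ.Lin
import Pool.Agent.Helper85.LQ.Line
import Pool.Agent.Helper59.LQ.Z9

/-! Package L3, first part: the strip with absolute constants; the zeros. -/

set_option autoImplicit false
set_option maxHeartbeats 1000000

open Complex MeasureTheory Filter Topology

namespace Pool.Agent.Helper59.LQ

open Pool.Agent.Helper75.LQ Pool.Agent.Helper75.JE
open Pool.Agent.H306R2 (Zt)
open Pool.Agent.Helper85.LG (xi Pg xi_diff xi_one_sub xi_conj Lm Pg_ne xi_eq zeta_two_sided)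

/-- the zeta function in the half-plane `Re s ≥ 1/2` -/
lemma zt_all {A : ℝ} (hA0 : 0 ≤ A) (hU : UpA A) {ε : ℝ} (hε : 0 < ε) :
    ∃ D : ℝ, 0 ≤ D ∧ ∀ s : ℂ, 1 / 2 ≤ s.re → ‖Zt s‖ ≤ D * ‖s + 1‖ ^ (1 + A + ε) := by
  obtain ⟨D, hD0, hD⟩ := Pool.Agent.Helper85.LQ.zt_line hA0 hU hε
  obtain ⟨B, hB1, hB⟩ := zeta_two_sided (σ := 2) (by norm_num)
  refine ⟨max D B, hD0.trans (le_max_left _ _), fun s hs => ?_⟩
  have h0 : 0 ≤ ‖s + 1‖ ^ (1 + A + ε) := by positivity
  rcases le_total s.re 2 with h | h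
  · exact (hD s hs h).trans (mul_le_mul_of_nonneg_right (le_max_left _ _) h0)
  · have hne : s ≠ 1 := by
      intro h'
      rw [h'] at h
      norm_num at h
    have hre : 3 ≤ ‖s + 1‖ := by
      have := Complex.re_le_norm (s + 1)
      simp only [add_re, one_re] at this
      linarith
    have hs1 : ‖s - 1‖ ≤ ‖s + 1‖ := by
      rw [Complex.norm_def, Complex.norm_def]
      apply Real.sqrt_le_sqrt
      rw [Complex.normSq_apply, Complex.normSq_apply]
      simp only [sub_re, one_re, sub_im, one_im, add_re, add_im]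
      nlinarith
    rw [← Pool.Agent.H306R2.zeta_eq_pos (by linarith) hne, norm_mul]
    have hz : ‖riemannZeta s‖ ≤ B := (hB s h).1
    have hp : ‖s + 1‖ ≤ ‖s + 1‖ ^ (1 + A + ε) := by
      conv_lhs => rw [← Real.rpow_one ‖s + 1‖]
      exact Real.rpow_le_rpow_of_exponent_le (by linarith) (by linarith)
    calc ‖s - 1‖ * ‖riemannZeta s‖ ≤ ‖s + 1‖ ^ (1 + A + ε) * B :=
          mul_le_mul (hs1.trans hp) hz (norm_nonneg _) h0
      _ = B * ‖s + 1‖ ^ (1 + A + ε) := mul_comm _ _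
      _ ≤ _ := mul_le_mul_of_nonneg_right (le_max_right _ _) h0

/-- the strip, with an absolute constant -/
lemma strip2 : ∃ K : ℝ, 0 ≤ K ∧ ∀ A : ℝ, 0 < A → A ≤ 1 / 2 → UpA A → ∃ X : ℝ, ∀ x : ℝ, X ≤ x →
    ∀ w : ℂ, 0 ≤ w.re → w.re ≤ 16 * A → ‖xi (1 / 2 + w + x * I)‖ ≤
      Nx x * Real.exp (K * (2 * A * Real.log x) + K * |w.im|) := by
  obtain ⟨CV, hCV0, hV⟩ := Pg_vert
  obtain ⟨CH, hCH0, hH⟩ := Pg_hor
  refine ⟨CV + 4 * CH + 60, by positivity, fun A hA0 hA12 hU => ?_⟩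
  obtain ⟨D, hD0, hD⟩ := zt_all hA0.le hU (ε := A / 4) (by linarith)
  have hlim : Tendsto (fun x : ℝ => 2 * A * Real.log x) atTop atTop :=
    Real.tendsto_log_atTop.const_mul_atTop (by linarith)
  have hlim2 : Tendsto (fun x : ℝ => A / 2 * Real.log x) atTop atTop :=
    Real.tendsto_log_atTop.const_mul_atTop (by linarith)
  obtain ⟨X1, hX1⟩ := eventually_atTop.1 (hlim.eventually_ge_atTop 1)
  obtain ⟨X2, hX2⟩ := eventually_atTop.1 (hlim2.eventually_ge_atTop (121 * D))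
  refine ⟨max 3 (max X1 X2), fun x hx w hw0 hw16 => ?_⟩
  have hx3 : 3 ≤ x := (le_max_left _ _).trans hx
  have hL1 := hX1 x (((le_max_left _ _).trans (le_max_right _ _)).trans hx)
  have hL2 := hX2 x (((le_max_right _ _).trans (le_max_right _ _)).trans hx)
  have hx0 : 0 < x := by linarith
  set σ : ℝ := w.re with hσ
  set s : ℝ := w.im with hs
  set l : ℝ := Real.log x with hl
  have hσ8 : σ ≤ 8 := by linarith
  have hlx : 1 ≤ l := by
    rw [hl, Real.le_log_iff_exp_le hx0]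
    have := Real.exp_one_lt_d9
    linarith
  have ez : (1 / 2 + w + x * I : ℂ) = ((1 / 2 + σ : ℝ) : ℂ) + ((x + s : ℝ) : ℂ) * I := by
    apply Complex.ext
    · simp [hσ]
    · simp [hs]; ring
  have ex : (((1 / 2 : ℝ) : ℂ) + (x : ℂ) * I) = 1 / 2 + x * I := by push_cast; ring
  set z : ℂ := ((1 / 2 + σ : ℝ) : ℂ) + ((x + s : ℝ) : ℂ) * I with hz
  have hre : z.re = 1 / 2 + σ := by simp [hz]
  have him : z.im = x + s := by simp [hz]
  rw [ez, xi_eq (by rw [hre]; linarith), norm_mul]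
  have hsx : 0 ≤ |s| := abs_nonneg s
  have n1 : ‖z + 1‖ ≤ 11 * x * Real.exp |s| := by
    have h1 := Complex.norm_le_abs_re_add_abs_im (z + 1)
    rw [add_re, add_im, hre, him, one_re, one_im, add_zero, abs_of_nonneg (by linarith : 0 ≤ 1 / 2 + σ + 1)] at h1
    have h2 : |x + s| ≤ x + |s| := (abs_add_le _ _).trans (by rw [abs_of_nonneg hx0.le])
    have h3 := Real.add_one_le_exp |s|
    nlinarith
  have hk2 : 1 + A + A / 4 ≤ 2 := by linarith
  have n2 : ‖Zt z‖ ≤ 121 * D * (x * Real.exp ((A + A / 4) * l)) * Real.exp (2 * |s|) := by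
    refine (hD z (by rw [hre]; linarith)).trans ?_
    have h1 : ‖z + 1‖ ^ (1 + A + A / 4) ≤ (11 * x * Real.exp |s|) ^ (1 + A + A / 4) :=
      Real.rpow_le_rpow (norm_nonneg _) n1 (by linarith)
    have h2 : (11 * x * Real.exp |s|) ^ (1 + A + A / 4) =
        11 ^ (1 + A + A / 4) * x ^ (1 + A + A / 4) * Real.exp (|s| * (1 + A + A / 4)) := by
      rw [Real.mul_rpow (by positivity) (Real.exp_pos _).le, Real.mul_rpow (by norm_num) hx0.le, ← Real.exp_mul]
    have h3 : (11 : ℝ) ^ (1 + A + A / 4) ≤ 121 := by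
      calc (11 : ℝ) ^ (1 + A + A / 4) ≤ 11 ^ (2 : ℝ) := Real.rpow_le_rpow_of_exponent_le (by norm_num) hk2
        _ = 121 := by norm_num
    have h4 : x ^ (1 + A + A / 4) = x * Real.exp ((A + A / 4) * l) := by
      rw [Real.rpow_def_of_pos hx0, ← hl]
      have : l * (1 + A + A / 4) = l + (A + A / 4) * l := by ring
      rw [this, Real.exp_add, hl, Real.exp_log hx0]
    have h5 : Real.exp (|s| * (1 + A + A / 4)) ≤ Real.exp (2 * |s|) := by
      apply Real.exp_le_exp.2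
      nlinarith
    rw [h2, h4] at h1
    have h6 : (11 : ℝ) ^ (1 + A + A / 4) * (x * Real.exp ((A + A / 4) * l)) * Real.exp (|s| * (1 + A + A / 4)) ≤
        121 * (x * Real.exp ((A + A / 4) * l)) * Real.exp (2 * |s|) := by
      apply mul_le_mul _ h5 (Real.exp_pos _).le (by positivity)
      exact mul_le_mul_of_nonneg_right h3 (by positivity)
    calc D * ‖z + 1‖ ^ (1 + A + A / 4) ≤ D * (121 * (x * Real.exp ((A + A / 4) * l)) * Real.exp (2 * |s|)) :=
          mul_le_mul_of_nonneg_left (h1.trans h6) hD0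
      _ = _ := by ring
  have n2' : ‖Zt z‖ ≤ x * Real.exp (2 * A * l + 2 * |s|) := by
    refine n2.trans ?_
    have h1 : 121 * D ≤ Real.exp (A / 2 * l) := by
      have := Real.add_one_le_exp (A / 2 * l)
      linarith
    calc 121 * D * (x * Real.exp ((A + A / 4) * l)) * Real.exp (2 * |s|)
        ≤ Real.exp (A / 2 * l) * (x * Real.exp ((A + A / 4) * l)) * Real.exp (2 * |s|) := by
          apply mul_le_mul_of_nonneg_right _ (Real.exp_pos _).le
          exact mul_le_mul_of_nonneg_right h1 (by positivity)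
      _ = x * Real.exp (A / 2 * l + (A + A / 4) * l + 2 * |s|) := by
          rw [Real.exp_add, Real.exp_add]; ring
      _ ≤ _ := by
          apply mul_le_mul_of_nonneg_left _ hx0.le
          apply Real.exp_le_exp.2
          have : 0 ≤ A * l := by positivity
          linarith
  have h1 := (hH x (1 / 2) (1 / 2 + σ) (by linarith) (by norm_num) (by linarith)).1
  have v1 := hV (1 / 2 + σ) (by linarith) (x + s) x
  have e1 : x + s - x = s := by ring
  have e2 : 1 / 2 + σ - 1 / 2 = σ := by ring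
  rw [e1] at v1
  rw [e2, ex] at h1
  have hll : Real.log (x + (1 / 2 + σ)) ≤ l + 9 := by
    have h4 : x + (1 / 2 + σ) ≤ x * 10 := by nlinarith
    have h5 := Real.log_le_log (by linarith) h4
    rw [Real.log_mul hx0.ne' (by linarith)] at h5
    have h6 := Real.log_le_sub_one_of_pos (show (0 : ℝ) < 10 by norm_num)
    linarith
  have p0 : 0 < ‖Pg (1 / 2 + x * I)‖ := norm_pos_iff.2 (Pg_ne (by simp))
  have n3 : ‖Pg z‖ ≤ Real.exp (CV * |s| + σ / 2 * (CH + (l + 9))) * ‖Pg (1 / 2 + x * I)‖ := by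
    refine v1.trans ((mul_le_mul_of_nonneg_left h1 (Real.exp_pos _).le).trans ?_)
    rw [← mul_assoc, ← Real.exp_add]
    apply mul_le_mul_of_nonneg_right _ p0.le
    apply Real.exp_le_exp.2
    have : σ / 2 * (CH + Real.log (x + (1 / 2 + σ))) ≤ σ / 2 * (CH + (l + 9)) :=
      mul_le_mul_of_nonneg_left (by linarith) (by linarith)
    linarith
  calc ‖Zt z‖ * ‖Pg z‖ ≤ (x * Real.exp (2 * A * l + 2 * |s|)) *
        (Real.exp (CV * |s| + σ / 2 * (CH + (l + 9))) * ‖Pg (1 / 2 + x * I)‖) :=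
        mul_le_mul n2' n3 (norm_nonneg _) (by positivity)
    _ = Nx x * Real.exp (2 * A * l + 2 * |s| + (CV * |s| + σ / 2 * (CH + (l + 9)))) := by
        unfold Nx
        rw [Real.exp_add (2 * A * l + 2 * |s|)]; ring
    _ ≤ _ := by
        apply mul_le_mul_of_nonneg_left _ (Nx_pos hx0).le
        apply Real.exp_le_exp.2
        have a1 : σ / 2 * l ≤ 4 * (2 * A * l) := by nlinarith
        have a2 : σ / 2 * (CH + 9) ≤ 4 * (CH + 9) * (2 * A * l) := by
          have b1 : σ / 2 * (CH + 9) ≤ 4 * (CH + 9) := mul_le_mul_of_nonneg_right (by linarith) (by linarith)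
          have b2 : 4 * (CH + 9) * 1 ≤ 4 * (CH + 9) * (2 * A * l) := mul_le_mul_of_nonneg_left hL1 (by linarith)
          linarith
        have a3 : 0 ≤ CV * (2 * A * l) := by positivity
        have a4 : 0 ≤ CH * |s| := by positivity
        nlinarith

/-- the zeros are at distance at most `2A(1+d)` -/
lemma few_of_L2 (hL2 : St_L2) {A κ d : ℝ} (hA0 : 0 < A) (hA12 : A ≤ 1 / 2) (hκ0 : 0 ≤ κ) (hd0 : 0 < d) (hd : d ≤ 1 / 4)
    (hκ : κ ≤ d ^ 2 / 16 * A) (hU : UpA A) (hLag : ∀ c > κ, LagC c) : ∀ ε > 0, Few (1 / 2 + (2 * A * (1 + d) + ε)) := by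
  set S : Set ℝ := {b : ℝ | 0 ≤ b ∧ Few (1 / 2 + b)} with hS
  have hS1 : (1 / 2 : ℝ) ∈ S := ⟨by norm_num, by norm_num; exact few_one⟩
  have hbdd : BddBelow S := ⟨0, fun b hb => hb.1⟩
  set b0 : ℝ := sInf S with hb0
  have hb00 : 0 ≤ b0 := le_csInf ⟨_, hS1⟩ fun b hb => hb.1
  have hb01 : b0 ≤ 1 / 2 := csInf_le hbdd hS1
  have hF : ∀ ε > 0, Few (1 / 2 + (b0 + ε)) := by
    intro ε hε
    obtain ⟨b, hb, hlt⟩ := exists_lt_of_csInf_lt ⟨_, hS1⟩ (show sInf S < b0 + ε by linarith)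
    exact hb.2.mono (by linarith)
  rcases le_or_gt b0 (2 * A * (1 + d)) with h | h
  · intro ε hε
    exact (hF ε hε).mono (by linarith)
  · exfalso
    have hAd : 0 < A * d := by positivity
    have hb0pos : 0 < b0 := by nlinarith
    have hlog : Real.log (b0 / (A * d)) ≤ b0 / (A * d) := by
      have := Real.log_le_sub_one_of_pos (show 0 < b0 / (A * d) by positivity)
      linarith
    have hk : 2 * κ * Real.log (b0 / (A * d)) ≤ d / 8 * b0 := by
      have h1 : 2 * κ * Real.log (b0 / (A * d)) ≤ 2 * κ * (b0 / (A * d)) :=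
        mul_le_mul_of_nonneg_left hlog (by linarith)
      have h2 : 2 * κ * (b0 / (A * d)) ≤ 2 * (d ^ 2 / 16 * A) * (b0 / (A * d)) :=
        mul_le_mul_of_nonneg_right (by linarith) (by positivity)
      have h3 : 2 * (d ^ 2 / 16 * A) * (b0 / (A * d)) = d / 8 * b0 := by
        field_simp
        ring
      linarith
    obtain ⟨b', hb', hFb⟩ := hL2 A κ (A * d) b0 hA0.le hA12 hκ0 hAd (by nlinarith) hb01 hU hLag hF (by nlinarith)
    have hm : max b' 0 ∈ S := ⟨le_max_right _ _, hFb.mono (by linarith [le_max_left b' 0])⟩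
    have := csInf_le hbdd hm
    have : b0 ≤ max b' 0 := this
    rcases max_choice b' 0 with h | h
    · rw [h] at this; linarith
    · rw [h] at this; linarith

/-- an explicit function `B` -/
lemma glob_fun (C : ℝ) (_hC : 1 ≤ C) : ∃ B : ℝ → ℝ, ∀ δ > 0, ∀ t : ℝ, 0 ≤ t →
    1 + t / 2 + C * t * Real.sqrt (1 + t) ≤ B δ + δ * t ^ 2 := by
  have : ∀ δ : ℝ, ∃ b : ℝ, 0 < δ → ∀ t : ℝ, 0 ≤ t → 1 + t / 2 + C * t * Real.sqrt (1 + t) ≤ b + δ * t ^ 2 := by
    intro δ
    by_cases hδ : 0 < δ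
    · set a : ℝ := 1 / 2 + δ / 2 + C ^ 2 / (2 * δ) with ha
      refine ⟨1 + a ^ 2 / (2 * δ), fun _ t ht => ?_⟩
      have h1 : C * Real.sqrt (1 + t) ≤ δ / 2 * (1 + t) + C ^ 2 / (2 * δ) := by
        have hs := Real.sq_sqrt (show 0 ≤ 1 + t by linarith)
        have h2 : δ / 2 * (1 + t) + C ^ 2 / (2 * δ) - C * Real.sqrt (1 + t) =
            (δ * Real.sqrt (1 + t) - C) ^ 2 / (2 * δ) := by
          field_simp
          linear_combination (-(δ ^ 2)) * hs
        have h3 : 0 ≤ (δ * Real.sqrt (1 + t) - C) ^ 2 / (2 * δ) := by positivity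
        linarith
      have h4 := mul_le_mul_of_nonneg_right h1 ht
      have h5 : a * t ≤ a ^ 2 / (2 * δ) + δ / 2 * t ^ 2 := by
        have h2 : a ^ 2 / (2 * δ) + δ / 2 * t ^ 2 - a * t = (δ * t - a) ^ 2 / (2 * δ) := by
          field_simp
          ring
        have h3 : 0 ≤ (δ * t - a) ^ 2 / (2 * δ) := by positivity
        linarith
      have h6 : a * t = t / 2 + δ / 2 * t + C ^ 2 / (2 * δ) * t := by rw [ha]; ring
      nlinarith
    · exact ⟨0, fun h => absurd h hδ⟩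
  choose B hB using this
  exact ⟨B, fun δ hδ t ht => hB δ hδ t ht⟩

end Pool.Agent.Helper59.LQ
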