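import Pool.Agent.Helper85.LG.Gr

/-! Bounds for the Gamma factor in the whole plane. -/

set_option autoImplicit false
set_option maxHeartbeats 1000000

open Complex Filter Topology Set
open Pool.Agent.H306R2 (Zt)
open Pool.Agent.Helper85.LG

namespace Pool.Agent.Helper59.LQ

lemma psi_im : ∃ C : ℝ, 1 ≤ C ∧ ∀ s : ℂ, 1 ≤ s.re → |(logDeriv Gamma s).im| ≤ C := by
  have hZ : (0 : ℝ) ≤ ∑' n : ℕ, 1 / ((n : ℝ) + 1) ^ 2 := tsum_nonneg fun n => by positivity
  refine ⟨6 + ∑' n : ℕ, 1 / ((n : ℝ) + 1) ^ 2, by linarith, fun s hs => ?_⟩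
  have h1 := H370.DG.logDeriv_Gamma' (s := s) (by linarith)
  have h2 := H370.DG.norm_tsum_er (s := s) (by linarith)
  have b1 : ‖1 / s‖ ≤ 1 := by
    have : 1 ≤ ‖s‖ := hs.trans (re_le_norm s)
    rw [norm_div, norm_one, div_le_one (by linarith)]
    exact this
  have b2 : ‖1 / (s + 1)‖ ≤ 1 := by
    have : 1 ≤ ‖s + 1‖ := by
      refine le_trans ?_ (re_le_norm (s + 1))
      simp; linarith
    rw [norm_div, norm_one, div_le_one (by linarith)]
    exact this
  have e : (logDeriv Gamma s).im = Complex.arg (s + 2) +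
      (-(1 / s) - 1 / (s + 1) + ∑' n, H370.DG.er n s).im := by
    rw [h1]
    simp only [add_im, sub_im, neg_im, log_im]
    ring
  rw [e]
  have a1 := Complex.abs_arg_le_pi (s + 2)
  have a2 := Real.pi_lt_d2
  refine (abs_add_le _ _).trans ?_
  have a3 := abs_im_le_norm (-(1 / s) - 1 / (s + 1) + ∑' n, H370.DG.er n s)
  have n1 := norm_add_le (-(1 / s) - 1 / (s + 1)) (∑' n, H370.DG.er n s)
  have n2 := norm_sub_le (-(1 / s)) (1 / (s + 1))
  rw [norm_neg] at n2
  linarith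

lemma Pg_pos {σ : ℝ} (hσ : 0 < σ) (t : ℝ) : 0 < ‖Pg (σ + t * I)‖ :=
  norm_pos_iff.2 (Pg_ne (by simpa using hσ))

/-- vertical lines -/
lemma Pg_vert : ∃ C : ℝ, 0 ≤ C ∧ ∀ σ : ℝ, 0 < σ → ∀ t u : ℝ,
    ‖Pg (σ + t * I)‖ ≤ Real.exp (C * |t - u|) * ‖Pg (σ + u * I)‖ := by
  obtain ⟨C, hC1, hC⟩ := psi_im
  refine ⟨C, by linarith, fun σ hσ t u => ?_⟩
  set h : ℝ → ℝ := fun t => Real.log (‖Pg (σ + t * I)‖ ^ 2) with hh
  have hder : ∀ t : ℝ, HasDerivAt h (-(logDeriv Gamma (1 + (σ + t * I) / 2)).im) t := by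
    intro t
    have e0 : I * ((t : ℂ) + ((-σ : ℝ) : ℂ) * I) = (σ + t * I : ℂ) := by
      push_cast
      linear_combination (-(σ : ℂ)) * Complex.I_mul_I
    have hre : 0 < (σ + t * I : ℂ).re := by simpa using hσ
    have hda : DifferentiableAt ℂ (fun s => Pg (I * s)) ((t : ℂ) + ((-σ : ℝ) : ℂ) * I) := by
      apply DifferentiableAt.comp (g := Pg) (f := fun s : ℂ => I * s)
      · rw [e0]; exact Pg_diffAt hre
      · fun_prop
    have hne : (fun s => Pg (I * s)) ((t : ℂ) + ((-σ : ℝ) : ℂ) * I) ≠ 0 := by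
      show Pg (I * ((t : ℂ) + ((-σ : ℝ) : ℂ) * I)) ≠ 0
      rw [e0]
      exact Pg_ne hre
    have d1 := hasDerivAt_log_norm_sq (f := fun s => Pg (I * s)) (x := -σ) (σ := t) hda hne
    have e1 : logDeriv (fun s => Pg (I * s)) ((t : ℂ) + ((-σ : ℝ) : ℂ) * I) = logDeriv Pg (σ + t * I) * I := by
      have h1 : HasDerivAt (fun s : ℂ => I * s) I ((t : ℂ) + ((-σ : ℝ) : ℂ) * I) := by
        simpa using (hasDerivAt_id ((t : ℂ) + ((-σ : ℝ) : ℂ) * I)).const_mul I
      have h2 : HasDerivAt (fun s : ℂ => Pg (I * s)) (deriv Pg (σ + t * I) * I) ((t : ℂ) + ((-σ : ℝ) : ℂ) * I) := by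
        apply HasDerivAt.comp (h₂ := Pg) (h := fun s : ℂ => I * s) _ _ h1
        rw [e0]
        exact (Pg_diffAt hre).hasDerivAt
      rw [logDeriv_apply, h2.deriv, logDeriv_apply, e0]
      ring
    rw [e1, Pg_logDeriv hre] at d1
    have e2 : 2 * ((-(Real.log Real.pi : ℂ) / 2 + logDeriv Gamma (1 + (σ + t * I) / 2) / 2) * I).re =
        -(logDeriv Gamma (1 + (σ + t * I) / 2)).im := by
      simp
      ring
    rw [e2] at d1
    have e3 : h = fun y : ℝ => Real.log (‖(fun s => Pg (I * s)) ((y : ℂ) + ((-σ : ℝ) : ℂ) * I)‖ ^ 2) := by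
      funext y
      have e0 : I * ((y : ℂ) + ((-σ : ℝ) : ℂ) * I) = (σ + y * I : ℂ) := by
        push_cast
        linear_combination (-(σ : ℂ)) * Complex.I_mul_I
      show Real.log (‖Pg (σ + y * I)‖ ^ 2) = Real.log (‖Pg (I * ((y : ℂ) + ((-σ : ℝ) : ℂ) * I))‖ ^ 2)
      rw [e0]
    rw [e3]
    exact d1
  have hbd : ∀ t ∈ (univ : Set ℝ), ‖-(logDeriv Gamma (1 + (σ + t * I) / 2)).im‖ ≤ C := by
    intro t _
    rw [norm_neg, Real.norm_eq_abs]
    exact hC _ (by simp; linarith)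
  have hmv := (convex_univ).norm_image_sub_le_of_norm_hasDerivWithin_le
    (fun t _ => (hder t).hasDerivWithinAt) hbd (mem_univ u) (mem_univ t)
  rw [Real.norm_eq_abs, Real.norm_eq_abs] at hmv
  have hp1 := Pg_pos hσ t
  have hp2 := Pg_pos hσ u
  simp only [hh] at hmv
  rw [Real.log_pow, Real.log_pow] at hmv
  have h3 := (abs_le.1 hmv).2
  rw [← Real.log_le_log_iff hp1 (by positivity), Real.log_mul (Real.exp_pos _).ne' hp2.ne', Real.log_exp]
  have h4 : 0 ≤ C * |t - u| := by positivity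
  push_cast at h3
  linarith

/-- horizontal lines -/
lemma Pg_hor : ∃ C : ℝ, 0 ≤ C ∧ ∀ x σ1 σ2 : ℝ, 1 ≤ x → 0 < σ1 → σ1 ≤ σ2 →
    ‖Pg (σ2 + x * I)‖ ≤ Real.exp ((σ2 - σ1) / 2 * (C + Real.log (x + σ2))) * ‖Pg (σ1 + x * I)‖ ∧
    Real.exp ((σ2 - σ1) / 2 * (Real.log x - C)) * ‖Pg (σ1 + x * I)‖ ≤ ‖Pg (σ2 + x * I)‖ := by
  obtain ⟨C, hC1, hC⟩ := psi_re
  refine ⟨C + 4, by linarith, fun x σ1 σ2 hx h1 h12 => ?_⟩
  have hx0 : 0 < x := by linarith
  set h : ℝ → ℝ := fun σ => Real.log (‖Pg (σ + x * I)‖ ^ 2) with hh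
  have hlog2 : Real.log 2 ≤ 1 := by linarith [Real.log_two_lt_d9]
  have hlog4 : Real.log 4 ≤ 2 := by
    rw [Real.log_le_iff_le_exp (by norm_num)]
    have h2 : Real.exp 2 = Real.exp 1 * Real.exp 1 := by rw [← Real.exp_add]; norm_num
    have := Real.exp_one_gt_d9
    nlinarith
  have hlogpi : Real.log Real.pi ≤ 2 := by
    rw [Real.log_le_iff_le_exp Real.pi_pos]
    have h2 : Real.exp 2 = Real.exp 1 * Real.exp 1 := by rw [← Real.exp_add]; norm_num
    have := Real.exp_one_gt_d9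
    have := Real.pi_lt_d2
    nlinarith
  have hlogpi0 : 0 ≤ Real.log Real.pi := Real.log_nonneg (by linarith [Real.pi_gt_three])
  have hder : ∀ σ : ℝ, 0 < σ → HasDerivAt h (2 * (logDeriv Pg (σ + x * I)).re) σ := by
    intro σ hσ
    exact hasDerivAt_log_norm_sq (f := Pg) (x := x) (σ := σ)
      (Pg_diffAt (by simpa using hσ)) (Pg_ne (by simpa using hσ))
  have hbd : ∀ σ : ℝ, 0 < σ → σ ≤ σ2 → Real.log x - (C + 4) ≤ 2 * (logDeriv Pg (σ + x * I)).re ∧
      2 * (logDeriv Pg (σ + x * I)).re ≤ C + 4 + Real.log (x + σ2) := by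
    intro σ hσ hσ2
    rw [Pg_logDeriv (by simpa using hσ)]
    have e : 2 * (-(Real.log Real.pi : ℂ) / 2 + logDeriv Gamma (1 + (σ + x * I) / 2) / 2).re =
        -Real.log Real.pi + (logDeriv Gamma (1 + (σ + x * I) / 2)).re := by
      simp; ring
    rw [e]
    have hp := hC (1 + (σ + x * I) / 2) (by simp; linarith)
    have hn1 : x / 2 ≤ ‖(1 + (σ + x * I) / 2 + 2 : ℂ)‖ := by
      have := Complex.abs_im_le_norm (1 + (σ + x * I) / 2 + 2 : ℂ)
      simp at this
      rw [abs_of_nonneg (by linarith : 0 ≤ x / 2)] at this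
      exact this
    have hn2 : ‖(1 + (σ + x * I) / 2 + 2 : ℂ)‖ ≤ 4 * (x + σ2) := by
      have := Complex.norm_le_abs_re_add_abs_im (1 + (σ + x * I) / 2 + 2 : ℂ)
      simp at this
      rw [abs_of_nonneg (by linarith : 0 ≤ x / 2), abs_of_nonneg (by linarith)] at this
      linarith
    have hl1 := Real.log_le_log (by positivity) hn1
    have hl2 := Real.log_le_log (by linarith) hn2
    rw [Real.log_div hx0.ne' (by norm_num)] at hl1
    rw [Real.log_mul (by norm_num) (by linarith)] at hl2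
    rw [abs_le] at hp
    constructor <;> linarith [hp.1, hp.2]
  have hp1 := Pg_pos h1 x
  have hp2 := Pg_pos (σ := σ2) (by linarith) x
  have hcont : ContinuousOn h (Icc σ1 σ2) := fun σ hσ => (hder σ (by linarith [hσ.1])).continuousAt.continuousWithinAt
  have key : (σ2 - σ1) * (Real.log x - (C + 4)) ≤ h σ2 - h σ1 ∧
      h σ2 - h σ1 ≤ (σ2 - σ1) * (C + 4 + Real.log (x + σ2)) := by
    rcases eq_or_lt_of_le h12 with he | hlt
    · rw [he]; simp
    · obtain ⟨σ, hσ, hs⟩ := exists_hasDerivAt_eq_slope h (fun σ => 2 * (logDeriv Pg (σ + x * I)).re) hlt hcont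
        (fun σ hσ => hder σ (by linarith [hσ.1]))
      have hb := hbd σ (by linarith [hσ.1]) hσ.2.le
      rw [eq_div_iff (by linarith)] at hs
      rw [← hs]
      constructor
      · rw [mul_comm]; exact mul_le_mul_of_nonneg_right hb.1 (by linarith)
      · rw [mul_comm (σ2 - σ1)]; exact mul_le_mul_of_nonneg_right hb.2 (by linarith)
  simp only [hh] at key
  rw [Real.log_pow, Real.log_pow] at key
  push_cast at key
  constructor
  · rw [← Real.log_le_log_iff hp2 (by positivity), Real.log_mul (Real.exp_pos _).ne' hp1.ne', Real.log_exp]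
    linarith [key.2]
  · rw [← Real.log_le_log_iff (by positivity) hp2, Real.log_mul (Real.exp_pos _).ne' hp1.ne', Real.log_exp]
    linarith [key.1]

end Pool.Agent.Helper59.LQ
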