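import Pool.Agent.Helper75.LQ.Yst
import Pool.Agent.Helper59.LQ.L3

/-! Package Y6: the rescaled local sequences, windows only. -/

set_option autoImplicit false
set_option maxHeartbeats 1000000

open Complex MeasureTheory Filter Topology

namespace Pool.Agent.Helper59.LQ

open Pool.Agent.Helper75.LQ Pool.Agent.Helper75.JE
open Pool.Agent.H306R2 (Zt)
open Pool.Agent.Helper85.LG (xi Pg xi_diff xi_one_sub xi_conj Lm Pg_ne xi_eq zeta_two_sided)

/-- upper bound of `xi` in a box of any size -/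
lemma xi_box (R Y : ℝ) (hY : 0 ≤ Y) : ∃ C X : ℝ, 0 ≤ C ∧ 3 ≤ X ∧ ∀ x : ℝ, X ≤ x → ∀ s y : ℝ, |s| ≤ R → 0 ≤ y → y ≤ Y →
    ‖xi (1 / 2 + y + (x + s) * I)‖ ≤ Nx x * Real.exp (C + y / 2 * Real.log x) *
      ‖riemannZeta (((1 / 2 + y : ℝ) : ℂ) + ((x + s : ℝ) : ℂ) * I)‖ := by
  obtain ⟨CV, hCV0, hV⟩ := Pg_vert
  obtain ⟨CH, hCH0, hH⟩ := Pg_hor
  refine ⟨CV * |R| + Y * (CH + 1) + 1, max (2 * |R| + 2 * Y + 20) 20, by positivity,
    by have := le_max_right (2 * |R| + 2 * Y + 20) 20; linarith, fun x hx s y hs hy0 hyY => ?_⟩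
  have hx1 := (le_max_left _ _).trans hx
  have hx2 := (le_max_right _ _).trans hx
  have hx0 : 0 < x := by linarith
  have hR : |s| ≤ |R| := hs.trans (le_abs_self R)
  have hR0 : 0 ≤ |R| := abs_nonneg R
  have hs2 := abs_le.1 hR
  set t : ℝ := x + s with ht
  have ht1 : x / 2 ≤ t := by linarith
  have hlx : 0 ≤ Real.log x := Real.log_nonneg (by linarith)
  have hlog2 : Real.log 2 ≤ 1 := by linarith [Real.log_two_lt_d9]
  have hl2 : Real.log (t + (1 / 2 + y)) ≤ Real.log x + 1 := by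
    have h1 : t + (1 / 2 + y) ≤ 2 * x := by linarith
    have := Real.log_le_log (by linarith) h1
    rw [Real.log_mul (by norm_num) (by linarith)] at this
    linarith
  have h1 := (hH t (1 / 2) (1 / 2 + y) (by linarith) (by norm_num) (by linarith)).1
  have v1 := hV (1 / 2) (by norm_num) t x
  have et : |t - x| ≤ |R| := by rw [ht]; simpa using hR
  have p0 := Pg_pos (σ := 1 / 2) (by norm_num) x
  have ey : 1 / 2 + y - 1 / 2 = y := by ring
  rw [ey] at h1
  set z : ℂ := ((1 / 2 + y : ℝ) : ℂ) + (t : ℂ) * I with hz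
  have ez : (1 / 2 + y + (x + s) * I : ℂ) = z := by rw [hz, ht]; push_cast; ring
  have ex : (((1 / 2 : ℝ) : ℂ) + (x : ℂ) * I) = 1 / 2 + x * I := by push_cast; ring
  rw [ex] at v1 p0
  have hP : ‖Pg z‖ ≤ Real.exp (CV * |R| + y / 2 * (CH + (Real.log x + 1))) * ‖Pg (1 / 2 + x * I)‖ := by
    refine h1.trans ((mul_le_mul_of_nonneg_left v1 (Real.exp_pos _).le).trans ?_)
    rw [← mul_assoc, ← Real.exp_add]
    apply mul_le_mul_of_nonneg_right _ p0.le
    apply Real.exp_le_exp.2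
    have a1 : y / 2 * (CH + Real.log (t + (1 / 2 + y))) ≤ y / 2 * (CH + (Real.log x + 1)) :=
      mul_le_mul_of_nonneg_left (by linarith) (by linarith)
    have a2 : CV * |t - x| ≤ CV * |R| := mul_le_mul_of_nonneg_left et hCV0
    linarith
  have hre : z.re = 1 / 2 + y := by simp [hz]
  have him : z.im = t := by simp [hz]
  have hne : z ≠ 1 := by
    intro h
    have := congrArg im h
    rw [him] at this
    simp at this
    linarith
  rw [ez, xi_eq (by rw [hre]; linarith), ← Pool.Agent.H306R2.zeta_eq_pos (by rw [hre]; linarith) hne, norm_mul]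
  have n1 : ‖z - 1‖ ≤ 2 * x := by
    have := Complex.norm_le_abs_re_add_abs_im (z - 1)
    rw [sub_re, sub_im, hre, him] at this
    simp only [one_re, one_im, sub_zero] at this
    rw [abs_of_nonneg (by linarith : 0 ≤ t)] at this
    have h3 : |1 / 2 + y - 1| ≤ Y + 1 := by rw [abs_le]; constructor <;> linarith
    linarith
  have z0 := norm_nonneg (riemannZeta z)
  have e2 : (2 : ℝ) ≤ Real.exp 1 := by have := Real.exp_one_gt_d9; linarith
  rw [norm_mul]
  calc ‖z - 1‖ * ‖riemannZeta z‖ * ‖Pg z‖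
      ≤ (2 * x) * ‖riemannZeta z‖ * (Real.exp (CV * |R| + y / 2 * (CH + (Real.log x + 1))) * ‖Pg (1 / 2 + x * I)‖) := by
        apply mul_le_mul _ hP (norm_nonneg _) (by positivity)
        exact mul_le_mul_of_nonneg_right n1 z0
    _ = 2 * (x * ‖Pg (1 / 2 + x * I)‖ * Real.exp (CV * |R| + y / 2 * (CH + (Real.log x + 1))) * ‖riemannZeta z‖) := by ring
    _ ≤ Real.exp 1 * (x * ‖Pg (1 / 2 + x * I)‖ * Real.exp (CV * |R| + y / 2 * (CH + (Real.log x + 1))) * ‖riemannZeta z‖) := by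
        apply mul_le_mul_of_nonneg_right e2 (by positivity)
    _ = Nx x * Real.exp (1 + (CV * |R| + y / 2 * (CH + (Real.log x + 1)))) * ‖riemannZeta z‖ := by
        unfold Nx
        rw [Real.exp_add 1]; ring
    _ ≤ _ := by
        apply mul_le_mul_of_nonneg_right _ z0
        apply mul_le_mul_of_nonneg_left _ (Nx_pos hx0).le
        apply Real.exp_le_exp.2
        have : y / 2 * (CH + 1) ≤ Y * (CH + 1) := mul_le_mul_of_nonneg_right (by linarith) (by linarith)
        linarith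

theorem st_Y6 (hY1 : St_Y1) (hY2 : St_Y2) (hY3 : St_Y3) : St_Y6 := by
  refine ⟨fun δ => 2 + 1 / (16 * δ), fun ε hε => ?_⟩
  set ρ : ℝ := min ε 1 / 8 with hρ
  have hm0 : 0 < min ε 1 := lt_min hε one_pos
  have hρ0 : 0 < ρ := by rw [hρ]; linarith
  have hρ1 : ρ ≤ 1 / 8 := by have := min_le_right ε 1; rw [hρ]; linarith
  have hρε : ρ ≤ ε / 8 := by have := min_le_left ε 1; rw [hρ]; linarith
  refine ⟨ρ, hρ0, fun A κ x hA0 hA12 hκ0 hκ hxlim hLine hNoZ hULag hbig => ?_⟩
  have hllim : Tendsto (fun j => Real.log (x j)) atTop atTop := Real.tendsto_log_atTop.comp hxlim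
  have hLlim : Tendsto (fun j => 2 * A * Real.log (x j)) atTop atTop := hllim.const_mul_atTop (by linarith)
  have hAε : 0 < A * ε := by positivity
  set η : ℝ := A * ρ / 2 with hη
  have hη0 : 0 < η := by positivity
  have hηε : η ≤ A * ε / 16 := by rw [hη]; nlinarith
  have hηA : η ≤ A / 16 := by rw [hη]; nlinarith
  have hρA : A * ρ ≤ A * ε / 8 := by nlinarith
  set B1 : ℝ := 2 * A * (1 + ρ) + η with hB1
  have hB1pos : 0 < B1 := by positivity
  have hB1A : 2 * A ≤ B1 := by rw [hB1]; nlinarith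
  -- local comparison
  have hcmp : ∀ R : ℝ, ∃ C5 : ℝ, ∀ᶠ j in atTop, ∀ z : ℂ, |z.re| ≤ R → |z.im| ≤ 8 →
      ‖gl (x j) z‖ ≤ Real.exp (C5 + |z.im| / 2 * Real.log (x j)) *
        ‖riemannZeta (((1 / 2 + |z.im| : ℝ) : ℂ) + ((x j + z.re : ℝ) : ℂ) * I)‖ ∧
      Real.exp (-C5 + |z.im| / 2 * Real.log (x j)) *
        ‖riemannZeta (((1 / 2 + |z.im| : ℝ) : ℂ) + ((x j + z.re : ℝ) : ℂ) * I)‖ ≤ ‖gl (x j) z‖ := by
    intro R
    obtain ⟨C5, X5, h5⟩ := z5 R
    refine ⟨C5, ?_⟩
    filter_upwards [hxlim.eventually_ge_atTop X5, hxlim.eventually_ge_atTop 3] with j hj hj3 z hz hz'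
    have hx0 : 0 < x j := by linarith
    obtain ⟨a1, a2⟩ := h5 (x j) hj z.re |z.im| hz (abs_nonneg _) hz'
    have er : x j ^ (|z.im| / 2) = Real.exp (|z.im| / 2 * Real.log (x j)) := by
      rw [Real.rpow_def_of_pos hx0, mul_comm]
    have ez : (((1 / 2 + |z.im| : ℝ) : ℂ) + ((x j + z.re : ℝ) : ℂ) * I) =
        1 / 2 + ((|z.im| : ℝ) : ℂ) + ((x j : ℂ) + ((z.re : ℝ) : ℂ)) * I := by push_cast; ring
    rw [norm_gl hx0, ez, Real.exp_add, Real.exp_add, ← er]
    have hNj := Nx_pos hx0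
    constructor
    · rw [div_le_iff₀ hNj]
      refine a1.trans (le_of_eq ?_)
      unfold Nx; ring
    · rw [le_div_iff₀ hNj]
      refine le_trans (le_of_eq ?_) a2
      unfold Nx; ring
  -- scaling
  have sre : ∀ z : ℂ, (((2 * A : ℝ) : ℂ) * z).re = 2 * A * z.re := fun z => by
    rw [Complex.re_ofReal_mul]
  have sim : ∀ z : ℂ, (((2 * A : ℝ) : ℂ) * z).im = 2 * A * z.im := fun z => by
    rw [Complex.im_ofReal_mul]
  have sabs : ∀ r : ℝ, |2 * A * r| = 2 * A * |r| := fun r => by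
    rw [abs_mul, abs_of_pos (by linarith : 0 < 2 * A)]
  have hre : ∀ (R : ℝ) (z : ℂ), |z.re| ≤ R → |(((2 * A : ℝ) : ℂ) * z).re| ≤ R := by
    intro R z hz
    rw [sre, sabs]
    have := abs_nonneg z.re
    nlinarith
  have him : ∀ z : ℂ, |z.im| ≤ 8 → |(((2 * A : ℝ) : ℂ) * z).im| ≤ 8 := by
    intro z hz
    rw [sim, sabs]
    have := abs_nonneg z.im
    nlinarith
  -- convexity
  have hconv : ∀ R : ℝ, ∀ᶠ j in atTop, ∀ y s : ℝ, 0 ≤ y → y ≤ B1 → |s| ≤ R →
      ‖riemannZeta (((1 / 2 + y : ℝ) : ℂ) + ((x j + s : ℝ) : ℂ) * I)‖ ≤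
        Real.exp (Real.log (x j) * ((A + η) * (1 - y / B1) + η)) := by
    intro R
    obtain ⟨R', hR'⟩ := hY3 (A + η) B1 R η (by positivity) (by linarith) hB1pos hη0
    filter_upwards [hLine η hη0 R', hNoZ η hη0 R', hxlim.eventually_ge_atTop R', hxlim.eventually_ge_atTop 3]
      with j h1 h2 h3 hj3 y s hy0 hyB hs
    have hx0 : 0 < x j := by linarith
    have e1 : (((1 / 2 + y : ℝ) : ℂ) + ((x j + s : ℝ) : ℂ) * I).re = 1 / 2 + y := by simp
    have e2 : (((1 / 2 + y : ℝ) : ℂ) + ((x j + s : ℝ) : ℂ) * I).im = x j + s := by simp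
    have h4 := hR' (x j) h3 h1 h2 (((1 / 2 + y : ℝ) : ℂ) + ((x j + s : ℝ) : ℂ) * I) (by rw [e1]; linarith)
      (by rw [e1]; linarith) (by rw [e2]; simpa using hs)
    rw [e1, Real.rpow_def_of_pos hx0] at h4
    refine h4.trans (le_of_eq ?_)
    congr 2
    ring
  -- to the right of the zeros
  have hright : ∀ R : ℝ, ∀ᶠ j in atTop, ∀ y s : ℝ, B1 ≤ y → y ≤ 8 → |s| ≤ R →
      Real.exp (Real.log (x j) * (-η)) ≤ ‖riemannZeta (((1 / 2 + y : ℝ) : ℂ) + ((x j + s : ℝ) : ℂ) * I)‖ ∧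
      ‖riemannZeta (((1 / 2 + y : ℝ) : ℂ) + ((x j + s : ℝ) : ℂ) * I)‖ ≤ Real.exp (Real.log (x j) * η) := by
    intro R
    obtain ⟨R', hR'⟩ := hY2 (2 * A * (1 + ρ) + η / 2) R (η / 2) (by positivity) (by linarith)
    filter_upwards [hNoZ (η / 2) (by linarith) R', hxlim.eventually_ge_atTop R', hxlim.eventually_ge_atTop 3]
      with j h2 h3 hj3 y s hyB hy8 hs
    have hx0 : 0 < x j := by linarith
    have hl0 : 0 ≤ Real.log (x j) := Real.log_nonneg (by linarith)
    have e1 : (((1 / 2 + y : ℝ) : ℂ) + ((x j + s : ℝ) : ℂ) * I).re = 1 / 2 + y := by simp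
    have e2 : (((1 / 2 + y : ℝ) : ℂ) + ((x j + s : ℝ) : ℂ) * I).im = x j + s := by simp
    obtain ⟨h4, h5⟩ := hR' (x j) h3 h2 (((1 / 2 + y : ℝ) : ℂ) + ((x j + s : ℝ) : ℂ) * I) (by rw [e1]; linarith)
      (by rw [e1]; linarith) (by rw [e2]; simpa using hs)
    rw [Real.rpow_def_of_pos hx0] at h4 h5
    refine ⟨le_trans (Real.exp_le_exp.2 ?_) h4, h5.trans (Real.exp_le_exp.2 ?_)⟩
    · nlinarith
    · nlinarith
  refine ⟨fun j z => gl (x j) (((2 * A : ℝ) : ℂ) * z), fun j => 2 * A * Real.log (x j), ?_⟩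
  refine { lim := hLlim, ent := fun j => (gl_diff _).comp (by fun_prop),
           re := fun j z => ?_, up0 := ?_, up1 := ?_, lo1 := ?_, big := ?_, glob := ?_, pos := ?_ }
  · show gl (x j) (((2 * A : ℝ) : ℂ) * (starRingEnd ℂ) z) = (starRingEnd ℂ) (gl (x j) (((2 * A : ℝ) : ℂ) * z))
    rw [← gl_re, map_mul, Complex.conj_ofReal]
  · -- up0
    intro R
    obtain ⟨C5, h5⟩ := hcmp R
    filter_upwards [h5, hconv R, hllim.eventually_ge_atTop (C5 / (A * ε)), hllim.eventually_ge_atTop 1]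
      with j a1 a2 a4 hl1 z hz hz'
    have hz8 : |z.im| ≤ 8 := by linarith
    obtain ⟨b1, -⟩ := a1 (((2 * A : ℝ) : ℂ) * z) (hre R z hz) (him z hz8)
    rw [div_le_iff₀ hAε] at a4
    set u : ℂ := ((2 * A : ℝ) : ℂ) * z with hu
    have hyu : |u.im| = 2 * A * |z.im| := by rw [hu, sim, sabs]
    have hy0 : 0 ≤ |u.im| := abs_nonneg _
    have hy2 : |u.im| ≤ 2 * A := by rw [hyu]; nlinarith [abs_nonneg z.im]
    have d1 := a2 |u.im| u.re hy0 (by linarith) (hre R z hz)
    refine b1.trans ((mul_le_mul_of_nonneg_left d1 (Real.exp_pos _).le).trans ?_)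
    rw [← Real.exp_add]
    apply Real.exp_le_exp.2
    have f1 : |u.im| / 2 + ((A + η) * (1 - |u.im| / B1) + η) ≤ A + A * ε := by
      have g1 : |u.im| / 2 - A * (|u.im| / B1) ≤ A * ρ + η / 2 := by
        have g2 : |u.im| / 2 - A * (|u.im| / B1) = (|u.im| / B1) * (A * ρ + η / 2) := by
          rw [hB1]
          have : (2 * A * (1 + ρ) + η) ≠ 0 := by positivity
          field_simp
          ring
        rw [g2]
        have g3 : |u.im| / B1 ≤ 1 := by rw [div_le_one hB1pos]; linarith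
        have g4 : 0 ≤ A * ρ + η / 2 := by positivity
        nlinarith
      have g5 : 0 ≤ η * (|u.im| / B1) := by positivity
      linarith
    have f2 := mul_le_mul_of_nonneg_left f1 (by linarith : 0 ≤ Real.log (x j))
    nlinarith
  · -- up1
    intro R
    obtain ⟨C5, h5⟩ := hcmp R
    filter_upwards [h5, hconv R, hright R, hllim.eventually_ge_atTop (C5 / (A * ε)), hllim.eventually_ge_atTop 1]
      with j a1 a2 a3 a4 hl1 z hz hz' hz8
    obtain ⟨b1, -⟩ := a1 (((2 * A : ℝ) : ℂ) * z) (hre R z hz) (him z hz8)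
    rw [div_le_iff₀ hAε] at a4
    set u : ℂ := ((2 * A : ℝ) : ℂ) * z with hu
    have hyu : |u.im| = 2 * A * |z.im| := by rw [hu, sim, sabs]
    have hyA : 2 * A ≤ |u.im| := by rw [hyu]; nlinarith
    have hy8 : |u.im| ≤ 8 := him z hz8
    have hgoal : 2 * A * Real.log (x j) * (|z.im| / 2 + ε) = |u.im| / 2 * Real.log (x j) + 2 * (Real.log (x j) * (A * ε)) := by
      rw [hyu]; ring
    rw [hgoal]
    rcases le_total |u.im| B1 with hc | hc
    · have d1 := a2 |u.im| u.re (by linarith) hc (hre R z hz)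
      refine b1.trans ((mul_le_mul_of_nonneg_left d1 (Real.exp_pos _).le).trans ?_)
      rw [← Real.exp_add]
      apply Real.exp_le_exp.2
      have f1 : (A + η) * (1 - |u.im| / B1) + η ≤ A * ε := by
        have g1 : 1 - |u.im| / B1 ≤ 5 / 4 * ρ := by
          have g2 : 1 - |u.im| / B1 = (B1 - |u.im|) / B1 := by field_simp
          rw [g2, div_le_iff₀ hB1pos]
          have g3 : B1 - |u.im| ≤ 5 / 2 * (A * ρ) := by rw [hB1, hη] at *; linarith
          have g4 : 5 / 4 * ρ * (2 * A) ≤ 5 / 4 * ρ * B1 := mul_le_mul_of_nonneg_left hB1A (by positivity)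
          linarith
        have g5 : (A + η) * (1 - |u.im| / B1) ≤ (A + η) * (5 / 4 * ρ) :=
          mul_le_mul_of_nonneg_left g1 (by positivity)
        have g6 : (A + η) * (5 / 4 * ρ) ≤ 2 * (A * ρ) := by
          have : (A + η) * (5 / 4 * ρ) ≤ (17 / 16 * A) * (5 / 4 * ρ) := mul_le_mul_of_nonneg_right (by linarith) (by positivity)
          have h0 : 0 ≤ A * ρ := by positivity
          nlinarith
        linarith
      have f2 := mul_le_mul_of_nonneg_left f1 (by linarith : 0 ≤ Real.log (x j))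
      nlinarith
    · have d1 := (a3 |u.im| u.re hc hy8 (hre R z hz)).2
      refine b1.trans ((mul_le_mul_of_nonneg_left d1 (Real.exp_pos _).le).trans ?_)
      rw [← Real.exp_add]
      apply Real.exp_le_exp.2
      have f2 : Real.log (x j) * η ≤ Real.log (x j) * (A * ε) :=
        mul_le_mul_of_nonneg_left (by linarith) (by linarith)
      nlinarith
  · -- lo1
    intro R
    obtain ⟨C5, h5⟩ := hcmp R
    filter_upwards [h5, hright R, hllim.eventually_ge_atTop (C5 / (A * ε)), hllim.eventually_ge_atTop 1]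
      with j a1 a3 a4 hl1 z hz hz' hz8
    have hab : |z.im| = z.im := abs_of_nonneg (by linarith)
    obtain ⟨-, b1⟩ := a1 (((2 * A : ℝ) : ℂ) * z) (hre R z hz) (him z (by rw [hab]; exact hz8))
    rw [div_le_iff₀ hAε] at a4
    set u : ℂ := ((2 * A : ℝ) : ℂ) * z with hu
    have hyu : |u.im| = 2 * A * z.im := by rw [hu, sim, sabs, hab]
    have hy8 : |u.im| ≤ 8 := him z (by rw [hab]; exact hz8)
    have hyA : B1 ≤ |u.im| := by rw [hyu, hB1]; nlinarith
    have d1 := (a3 |u.im| u.re hyA hy8 (hre R z hz)).1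
    refine le_trans ?_ ((mul_le_mul_of_nonneg_left d1 (Real.exp_pos _).le).trans b1)
    rw [← Real.exp_add]
    apply Real.exp_le_exp.2
    have hgoal : 2 * A * Real.log (x j) * (z.im / 2 - ε) = |u.im| / 2 * Real.log (x j) - 2 * (Real.log (x j) * (A * ε)) := by
      rw [hyu]; ring
    have f2 : Real.log (x j) * η ≤ Real.log (x j) * (A * ε) :=
      mul_le_mul_of_nonneg_left (by linarith) (by linarith)
    rw [hgoal]
    nlinarith
  · -- big
    obtain ⟨C5, h5⟩ := hcmp 0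
    filter_upwards [h5, hbig (A * ε) hAε, hllim.eventually_ge_atTop (C5 / (A * ε)), hxlim.eventually_ge_atTop 3]
      with j a1 a2 a4 hj3
    have hx0 : 0 < x j := by linarith
    obtain ⟨-, b1⟩ := a1 0 (by simp) (by simp)
    rw [div_le_iff₀ hAε] at a4
    have e1 : ((((1 / 2 + |(0 : ℂ).im| : ℝ) : ℂ) + ((x j + (0 : ℂ).re : ℝ) : ℂ) * I)) = 1 / 2 + x j * I := by
      simp
    have e2 : |(0 : ℂ).im| / 2 * Real.log (x j) = 0 := by simp
    rw [e1, e2] at b1
    show Real.exp (2 * A * Real.log (x j) * (1 / 2 - ε)) ≤ ‖gl (x j) (((2 * A : ℝ) : ℂ) * 0)‖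
    rw [mul_zero]
    refine le_trans ?_ ((mul_le_mul_of_nonneg_left a2 (Real.exp_pos _).le).trans b1)
    rw [Real.rpow_def_of_pos hx0, ← Real.exp_add]
    apply Real.exp_le_exp.2
    nlinarith
  · -- glob
    intro δ hδ
    obtain ⟨B', X', hX'⟩ := z7 (δ / 2) (by linarith)
    -- the radius
    set R0 : ℝ := max 1 (Real.sqrt (2 * |B'| / (2 * A) / δ)) with hR0
    have hR01 : 1 ≤ R0 := le_max_left _ _
    obtain ⟨C, X, hC0, hX3, hbox⟩ := xi_box R0 R0 (by linarith)
    obtain ⟨R', hR'⟩ := hY1 (A + η) R0 (A / 2) (by positivity) (by linarith) (by linarith)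
    filter_upwards [hxlim.eventually_ge_atTop X', hxlim.eventually_ge_atTop X, hxlim.eventually_ge_atTop R',
      hLine η hη0 R', hLlim.eventually_ge_atTop C, hllim.eventually_ge_atTop 1] with j j1 j2 j3 j4 j5 hl1 z
    have hx0 : 0 < x j := by linarith
    have hNj := Nx_pos hx0
    set u : ℂ := ((2 * A : ℝ) : ℂ) * z with hu
    have hn : ‖u‖ = 2 * A * ‖z‖ := by
      rw [hu, norm_mul, Complex.norm_real, Real.norm_of_nonneg (by linarith)]
    have hz0 : 0 ≤ ‖z‖ := norm_nonneg z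
    have hnz : ‖u‖ ≤ ‖z‖ := by rw [hn]; nlinarith
    set l : ℝ := Real.log (x j) with hl
    have hL0 : 0 ≤ 2 * A * l := by positivity
    show ‖gl (x j) u‖ ≤ _
    rcases le_or_gt ‖z‖ R0 with hzR | hzR
    · -- inside
      have hyu : |u.im| = 2 * A * |z.im| := by rw [hu, sim, sabs]
      have him' : |z.im| ≤ ‖z‖ := Complex.abs_im_le_norm z
      have hure : |u.re| ≤ R0 := (Complex.abs_re_le_norm u).trans (hnz.trans hzR)
      have huim : |u.im| ≤ R0 := (Complex.abs_im_le_norm u).trans (hnz.trans hzR)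
      rw [norm_gl hx0, div_le_iff₀ hNj, mul_comm (Real.exp _)]
      refine (hbox (x j) j2 u.re |u.im| hure (abs_nonneg _) huim).trans ?_
      have e1 : (((1 / 2 + |u.im| : ℝ) : ℂ) + ((x j + u.re : ℝ) : ℂ) * I).re = 1 / 2 + |u.im| := by simp
      have e2 : (((1 / 2 + |u.im| : ℝ) : ℂ) + ((x j + u.re : ℝ) : ℂ) * I).im = x j + u.re := by simp
      have h4 := hR' (x j) j3 j4 (((1 / 2 + |u.im| : ℝ) : ℂ) + ((x j + u.re : ℝ) : ℂ) * I)
        (by rw [e1]; linarith [abs_nonneg u.im]) (by rw [e2]; simpa using hure)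
      rw [Real.rpow_def_of_pos hx0, ← hl] at h4
      rw [mul_assoc]
      apply mul_le_mul_of_nonneg_left _ hNj.le
      refine (mul_le_mul_of_nonneg_left h4 (Real.exp_pos _).le).trans ?_
      rw [← Real.exp_add]
      apply Real.exp_le_exp.2
      have g1 : |u.im| / 2 * l ≤ 2 * A * l * (‖z‖ / 2) := by
        rw [hyu]
        have : |z.im| * (A * l) ≤ ‖z‖ * (A * l) := mul_le_mul_of_nonneg_right him' (by positivity)
        nlinarith
      have g2 : l * (A + η + A / 2) ≤ 2 * A * l * 1 := by nlinarith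
      have g3 : ‖z‖ / 2 ≤ 1 / (16 * δ) + δ * ‖z‖ ^ 2 := by
        have : 1 / (16 * δ) + δ * ‖z‖ ^ 2 - ‖z‖ / 2 = (4 * δ * ‖z‖ - 1) ^ 2 / (16 * δ) := by
          field_simp
          ring
        have h0 : 0 ≤ (4 * δ * ‖z‖ - 1) ^ 2 / (16 * δ) := by positivity
        linarith
      have g4 := mul_le_mul_of_nonneg_left g3 hL0
      nlinarith
    · -- outside
      have h1 := hX' (x j) j1 (I * u)
      have e1 : (1 / 2 + I * u + (x j : ℂ) * I : ℂ) = 1 / 2 + I * (x j + u) := by ring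
      rw [e1, norm_mul, Complex.norm_I, one_mul] at h1
      unfold gl
      rw [norm_div, Complex.norm_real, Real.norm_of_nonneg hNj.le, div_le_iff₀ hNj, mul_comm (Real.exp _)]
      refine h1.trans ?_
      show Nx (x j) * _ ≤ _
      apply mul_le_mul_of_nonneg_left _ hNj.le
      apply Real.exp_le_exp.2
      have hsq : 2 * |B'| / (2 * A) / δ ≤ ‖z‖ ^ 2 := by
        have h2 : Real.sqrt (2 * |B'| / (2 * A) / δ) ≤ ‖z‖ := (le_max_right _ _).trans hzR.le
        have h3 : 0 ≤ 2 * |B'| / (2 * A) / δ := by positivity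
        calc 2 * |B'| / (2 * A) / δ = Real.sqrt (2 * |B'| / (2 * A) / δ) ^ 2 := (Real.sq_sqrt h3).symm
          _ ≤ ‖z‖ ^ 2 := pow_le_pow_left₀ (Real.sqrt_nonneg _) h2 2
      have hB' : B' ≤ 2 * A * (δ / 2 * ‖z‖ ^ 2) := by
        rw [div_div, div_le_iff₀ (by positivity)] at hsq
        have := le_abs_self B'
        linarith
      have hu2 : ‖u‖ ^ 2 ≤ 2 * A * ‖z‖ ^ 2 := by
        rw [hn]
        have : (2 * A * ‖z‖) ^ 2 = (2 * A) * (2 * A * ‖z‖ ^ 2) := by ring
        rw [this]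
        have h0 : 0 ≤ 2 * A * ‖z‖ ^ 2 := by positivity
        nlinarith
      have g1 : B' + δ / 2 * ‖u‖ ^ 2 ≤ 2 * A * (δ * ‖z‖ ^ 2) := by
        have : δ / 2 * ‖u‖ ^ 2 ≤ δ / 2 * (2 * A * ‖z‖ ^ 2) := mul_le_mul_of_nonneg_left hu2 (by linarith)
        linarith
      have g2 := mul_le_mul_of_nonneg_left g1 (by linarith : 0 ≤ l)
      have g3 : 0 ≤ 2 * A * l * (2 + 1 / (16 * δ)) := by positivity
      nlinarith
  · -- pos
    intro R
    filter_upwards [hULag (A * ε) hAε R, hllim.eventually_ge_atTop 1] with j a2 hl1 s hs m hm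
    have hs' : |2 * A * s| ≤ R := by
      rw [sabs]
      have := abs_nonneg s
      nlinarith
    rw [Lag_scale (gl_diff _), gl_Lag]
    apply mul_nonneg (by positivity)
    apply div_nonneg _ (sq_nonneg _)
    apply a2 (x j + 2 * A * s) (by simpa using hs') m
    refine le_trans ?_ hm
    have h1 : κ + A * ε ≤ 2 * A * ε := by linarith
    have := mul_le_mul_of_nonneg_right h1 (by linarith : 0 ≤ Real.log (x j))
    linarith

end Pool.Agent.Helper59.LQ
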