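import Pool.Agent.Helper59.LQ.PgB

/-! The factor between `xi` and `ζ`: local bounds, strip, plane. -/

set_option autoImplicit false
set_option maxHeartbeats 1000000

open Complex Filter Topology Set
open Pool.Agent.H306R2 (Zt)
open Pool.Agent.Helper85.LG

namespace Pool.Agent.Helper59.LQ

/-- local bounds for the Gamma factor -/
lemma Pg_loc (R : ℝ) : ∃ C : ℝ, 0 ≤ C ∧ ∀ x : ℝ, 2 * R + 20 ≤ x → 20 ≤ x → ∀ s y : ℝ, |s| ≤ R → 0 ≤ y → y ≤ 8 →
    ‖Pg (((1 / 2 + y : ℝ) : ℂ) + ((x + s : ℝ) : ℂ) * I)‖ ≤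
      Real.exp (C + y / 2 * Real.log x) * ‖Pg (((1 / 2 : ℝ) : ℂ) + (x : ℂ) * I)‖ ∧
    Real.exp (-C + y / 2 * Real.log x) * ‖Pg (((1 / 2 : ℝ) : ℂ) + (x : ℂ) * I)‖ ≤
      ‖Pg (((1 / 2 + y : ℝ) : ℂ) + ((x + s : ℝ) : ℂ) * I)‖ := by
  obtain ⟨CV, hCV0, hV⟩ := Pg_vert
  obtain ⟨CH, hCH0, hH⟩ := Pg_hor
  refine ⟨CV * |R| + 4 * CH + 8, by positivity, fun x hx hx20 s y hs hy0 hy8 => ?_⟩
  have hR : 0 ≤ R := (abs_nonneg s).trans hs
  rw [abs_of_nonneg hR]
  have hs2 := abs_le.1 hs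
  set t : ℝ := x + s with ht
  have ht1 : x / 2 ≤ t := by linarith
  have ht2 : t ≤ 3 / 2 * x := by linarith
  have hlx : 0 ≤ Real.log x := Real.log_nonneg (by linarith)
  have hlog2 : Real.log 2 ≤ 1 := by linarith [Real.log_two_lt_d9]
  have hl1 : Real.log x - 1 ≤ Real.log t := by
    have := Real.log_le_log (by positivity) ht1
    rw [Real.log_div (by linarith) (by norm_num)] at this
    linarith
  have hl2 : Real.log (t + (1 / 2 + y)) ≤ Real.log x + 1 := by
    have h1 : t + (1 / 2 + y) ≤ 2 * x := by linarith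
    have := Real.log_le_log (by linarith) h1
    rw [Real.log_mul (by norm_num) (by linarith)] at this
    linarith
  obtain ⟨h1, h2⟩ := hH t (1 / 2) (1 / 2 + y) (by linarith) (by norm_num) (by linarith)
  have v1 := hV (1 / 2) (by norm_num) t x
  have v2 := hV (1 / 2) (by norm_num) x t
  have et : |t - x| ≤ R := by rw [ht]; simpa using hs
  have et' : |x - t| ≤ R := by rw [abs_sub_comm]; exact et
  have w1 : Real.exp (CV * |t - x|) ≤ Real.exp (CV * R) := Real.exp_le_exp.2 (mul_le_mul_of_nonneg_left et hCV0)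
  have w2 : Real.exp (CV * |x - t|) ≤ Real.exp (CV * R) := Real.exp_le_exp.2 (mul_le_mul_of_nonneg_left et' hCV0)
  have p0 := Pg_pos (σ := 1 / 2) (by norm_num) x
  have p1 := Pg_pos (σ := 1 / 2) (by norm_num) t
  have v1' := v1.trans (mul_le_mul_of_nonneg_right w1 p0.le)
  have v2' := v2.trans (mul_le_mul_of_nonneg_right w2 p1.le)
  have ey : 1 / 2 + y - 1 / 2 = y := by ring
  rw [ey] at h1 h2
  constructor
  · refine h1.trans ((mul_le_mul_of_nonneg_left v1' (Real.exp_pos _).le).trans ?_)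
    rw [← mul_assoc, ← Real.exp_add]
    apply mul_le_mul_of_nonneg_right _ p0.le
    apply Real.exp_le_exp.2
    nlinarith
  · refine le_trans ?_ ((mul_le_mul_of_nonneg_left v2' (Real.exp_pos (y / 2 * (Real.log t - CH) - CV * R)).le).trans ?_)
    · apply mul_le_mul_of_nonneg_right _ p0.le
      apply Real.exp_le_exp.2
      nlinarith
    · rw [← mul_assoc, ← Real.exp_add]
      refine le_trans (le_of_eq ?_) h2
      congr 2
      ring

/-- Z5 -/
theorem z5 (R : ℝ) : ∃ C X : ℝ, ∀ x : ℝ, X ≤ x → ∀ s y : ℝ, |s| ≤ R → 0 ≤ y → y ≤ 8 →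
  ‖xi (1 / 2 + y + (x + s) * I)‖ ≤
    Real.exp C * x ^ (y / 2) * (x * ‖Pg (1 / 2 + x * I)‖) * ‖riemannZeta (1 / 2 + y + (x + s) * I)‖ ∧
  Real.exp (-C) * x ^ (y / 2) * (x * ‖Pg (1 / 2 + x * I)‖) * ‖riemannZeta (1 / 2 + y + (x + s) * I)‖ ≤
    ‖xi (1 / 2 + y + (x + s) * I)‖ := by
  obtain ⟨C, hC0, hC⟩ := Pg_loc R
  refine ⟨C + 1, max (2 * R + 20) 20, fun x hx s y hs hy0 hy8 => ?_⟩
  have hx1 := (le_max_left _ _).trans hx
  have hx2 := (le_max_right _ _).trans hx
  have hx0 : 0 < x := by linarith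
  have hs2 := abs_le.1 hs
  obtain ⟨h1, h2⟩ := hC x hx1 hx2 s y hs hy0 hy8
  set z : ℂ := 1 / 2 + y + (x + s) * I with hz
  have ez : ((1 / 2 + y : ℝ) : ℂ) + ((x + s : ℝ) : ℂ) * I = z := by rw [hz]; push_cast; ring
  have ex : (((1 / 2 : ℝ) : ℂ) + (x : ℂ) * I) = 1 / 2 + x * I := by push_cast; ring
  rw [ez, ex] at h1 h2
  have hre : z.re = 1 / 2 + y := by rw [← ez]; simp
  have him : z.im = x + s := by rw [← ez]; simp
  have hne : z ≠ 1 := by
    intro h
    have := congrArg im h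
    rw [him] at this
    simp at this
    linarith
  rw [xi_eq (by rw [hre]; linarith), ← Pool.Agent.H306R2.zeta_eq_pos (by rw [hre]; linarith) hne, norm_mul, norm_mul]
  have n1 : ‖z - 1‖ ≤ 2 * x := by
    have := Complex.norm_le_abs_re_add_abs_im (z - 1)
    rw [sub_re, sub_im, hre, him] at this
    simp only [one_re, one_im, sub_zero] at this
    rw [abs_of_nonneg (by linarith : 0 ≤ x + s)] at this
    have : |1 / 2 + y - 1| ≤ 8 := by rw [abs_le]; constructor <;> linarith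
    linarith
  have n2 : x / 2 ≤ ‖z - 1‖ := by
    have := Complex.abs_im_le_norm (z - 1)
    rw [sub_im, him] at this
    simp only [one_im, sub_zero] at this
    rw [abs_of_nonneg (by linarith : 0 ≤ x + s)] at this
    linarith
  have e2 : (2 : ℝ) ≤ Real.exp 1 := by have := Real.exp_one_gt_d9; linarith
  have e3 : Real.exp (-1) ≤ 1 / 2 := by
    rw [Real.exp_neg, inv_eq_one_div]
    exact one_div_le_one_div_of_le (by norm_num) e2
  have er : x ^ (y / 2) = Real.exp (y / 2 * Real.log x) := by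
    rw [Real.rpow_def_of_pos hx0, mul_comm]
  rw [er]
  have p0 : 0 < ‖Pg (1 / 2 + x * I)‖ := norm_pos_iff.2 (Pg_ne (by simp))
  have z0 := norm_nonneg (riemannZeta z)
  constructor
  · calc ‖z - 1‖ * ‖riemannZeta z‖ * ‖Pg z‖
        ≤ (2 * x) * ‖riemannZeta z‖ * (Real.exp (C + y / 2 * Real.log x) * ‖Pg (1 / 2 + x * I)‖) := by
          apply mul_le_mul _ h1 (norm_nonneg _) (by positivity)
          exact mul_le_mul_of_nonneg_right n1 z0
      _ = 2 * (x * ‖riemannZeta z‖ * (Real.exp (C + y / 2 * Real.log x) * ‖Pg (1 / 2 + x * I)‖)) := by ring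
      _ ≤ Real.exp 1 * (x * ‖riemannZeta z‖ * (Real.exp (C + y / 2 * Real.log x) * ‖Pg (1 / 2 + x * I)‖)) := by
          apply mul_le_mul_of_nonneg_right e2 (by positivity)
      _ = _ := by rw [Real.exp_add C 1, Real.exp_add C]; ring
  · calc Real.exp (-(C + 1)) * Real.exp (y / 2 * Real.log x) * (x * ‖Pg (1 / 2 + x * I)‖) * ‖riemannZeta z‖
        = Real.exp (-1) * (x * ‖riemannZeta z‖ * (Real.exp (-C + y / 2 * Real.log x) * ‖Pg (1 / 2 + x * I)‖)) := by
          rw [neg_add, Real.exp_add (-C) (-1), Real.exp_add (-C)]; ring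
      _ ≤ 1 / 2 * (x * ‖riemannZeta z‖ * (Real.exp (-C + y / 2 * Real.log x) * ‖Pg (1 / 2 + x * I)‖)) := by
          apply mul_le_mul_of_nonneg_right e3 (by positivity)
      _ = (x / 2) * ‖riemannZeta z‖ * (Real.exp (-C + y / 2 * Real.log x) * ‖Pg (1 / 2 + x * I)‖) := by ring
      _ ≤ _ := by
          apply mul_le_mul _ h2 (by positivity) (by positivity)
          exact mul_le_mul_of_nonneg_right n2 z0

end Pool.Agent.Helper59.LQ
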